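import Mathlib

/-! # A dense bipartite graph contains two sets with many edges between them, all of whose pairs are
joined by many paths of length three -/

set_option autoImplicit false

namespace Pool.Agent.Run7.h84.US

open Finset

lemma aux1 (δ n : ℝ) (h : 0 < δ) : 64 / δ ^ 2 * (n ^ 2 * (δ ^ 4 * n / 512)) = δ ^ 2 * n ^ 3 / 8 := by
  have := h.ne'
  field_simp
  ring

lemma aux2 (δ x : ℝ) (h : 0 < δ) : x = δ ^ 2 / 64 * (64 / δ ^ 2 * x) := by
  have := h.ne'
  field_simp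

/-- The graph lemma of Balog, Szemeredi and Gowers, with many edges between the two sets. -/
theorem graph_lemma {α β : Type*} (U : Finset α) (V : Finset β) (E : α → β → Prop)
    [∀ a b, Decidable (E a b)] (n δ : ℝ) (hn : 0 < n) (hδ : 0 < δ)
    (hU : (U.card : ℝ) ≤ n) (hV : (V.card : ℝ) ≤ n)
    (hE : δ * n ^ 2 ≤ ∑ u ∈ U, ((V.filter fun v => E u v).card : ℝ)) :
    ∃ A' ⊆ U, ∃ B' ⊆ V,
      δ ^ 2 / 24 * n ^ 2 ≤ (((A' ×ˢ B').filter fun q => E q.1 q.2).card : ℝ) ∧
      ∀ u ∈ A', ∀ v ∈ B', δ ^ 6 / 12288 * n ^ 2 ≤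
        (((U ×ˢ V).filter fun q => E u q.2 ∧ E q.1 q.2 ∧ E q.1 v).card : ℝ) := by
  classical
  -- vertices of large degree
  set deg : α → ℝ := fun u => ((V.filter fun v => E u v).card : ℝ) with hdeg
  set U' := U.filter fun u => δ / 2 * n ≤ deg u with hU'
  have hU'c : (U'.card : ℝ) ≤ n := le_trans (by exact_mod_cast card_le_card (filter_subset _ _)) hU
  have hsum1 : δ / 2 * n ^ 2 ≤ ∑ u ∈ U', deg u := by
    have h1 : ∑ u ∈ U, deg u = ∑ u ∈ U', deg u + ∑ u ∈ U.filter (fun u => ¬ δ / 2 * n ≤ deg u), deg u :=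
      (sum_filter_add_sum_filter_not _ _ _).symm
    have h2 : ∑ u ∈ U.filter (fun u => ¬ δ / 2 * n ≤ deg u), deg u ≤ n * (δ / 2 * n) := by
      calc ∑ u ∈ U.filter (fun u => ¬ δ / 2 * n ≤ deg u), deg u
          ≤ ∑ _u ∈ U.filter (fun u => ¬ δ / 2 * n ≤ deg u), (δ / 2 * n) :=
            sum_le_sum fun u hu => (not_le.1 (mem_filter.1 hu).2).le
        _ = (U.filter (fun u => ¬ δ / 2 * n ≤ deg u)).card * (δ / 2 * n) := by
            rw [sum_const, nsmul_eq_mul]
        _ ≤ n * (δ / 2 * n) := by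
            apply mul_le_mul_of_nonneg_right _ (by positivity)
            exact le_trans (by exact_mod_cast card_le_card (filter_subset _ _)) hU
    have h3 : n * (δ / 2 * n) = δ / 2 * n ^ 2 := by ring
    have h4 : δ * n ^ 2 = δ / 2 * n ^ 2 + δ / 2 * n ^ 2 := by ring
    have h5 : δ * n ^ 2 ≤ ∑ u ∈ U, deg u := hE
    linarith only [h1, h2, h3, h4, h5]
  set Nb : β → Finset α := fun v => U'.filter fun u => E u v with hNb
  have hNbsum : ∑ v ∈ V, ((Nb v).card : ℝ) = ∑ u ∈ U', deg u := by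
    simp only [hNb, hdeg, card_filter, Nat.cast_sum]
    rw [sum_comm]
  -- bad pairs
  obtain ⟨θ, hθ⟩ : ∃ θ : ℝ, θ = δ ^ 4 * n / 512 := ⟨_, rfl⟩
  have hθ0 : 0 < θ := by rw [hθ]; positivity
  set cod : α → α → ℝ := fun u u' => ((V.filter fun v => E u v ∧ E u' v).card : ℝ) with hcod
  set b : β → ℝ := fun v => (((Nb v ×ˢ Nb v).filter fun q => cod q.1 q.2 < θ).card : ℝ) with hb
  have hbsum : ∑ v ∈ V, b v ≤ n ^ 2 * θ := by
    have h1 : ∑ v ∈ V, b v = ∑ q ∈ (U' ×ˢ U').filter (fun q => cod q.1 q.2 < θ), cod q.1 q.2 := by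
      have e1 : ∀ v, b v = ∑ q ∈ (U' ×ˢ U').filter (fun q => cod q.1 q.2 < θ),
          (if E q.1 v ∧ E q.2 v then (1 : ℝ) else 0) := by
        intro v
        simp only [hb]
        rw [← Finset.sum_filter, Finset.sum_const, nsmul_eq_mul, mul_one]
        congr 2
        ext q
        simp only [hNb, mem_filter, mem_product]
        tauto
      simp only [e1]
      rw [sum_comm]
      refine sum_congr rfl fun q _ => ?_
      simp only [hcod]
      rw [← Finset.sum_filter, Finset.sum_const, nsmul_eq_mul, mul_one]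
    rw [h1]
    calc ∑ q ∈ (U' ×ˢ U').filter (fun q => cod q.1 q.2 < θ), cod q.1 q.2
        ≤ ∑ _q ∈ (U' ×ˢ U').filter (fun q => cod q.1 q.2 < θ), θ :=
          sum_le_sum fun q hq => (mem_filter.1 hq).2.le
      _ = ((U' ×ˢ U').filter (fun q => cod q.1 q.2 < θ)).card * θ := by
          rw [sum_const, nsmul_eq_mul]
      _ ≤ n ^ 2 * θ := by
          apply mul_le_mul_of_nonneg_right _ (by positivity)
          calc (((U' ×ˢ U').filter (fun q => cod q.1 q.2 < θ)).card : ℝ)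
              ≤ ((U' ×ˢ U').card : ℝ) := by exact_mod_cast card_le_card (filter_subset _ _)
            _ = (U'.card : ℝ) * U'.card := by rw [card_product]; push_cast; ring
            _ ≤ n * n := mul_le_mul hU'c hU'c (by positivity) hn.le
            _ = n ^ 2 := by ring
  -- the second moment
  have hVpos : 0 < V.card := by
    rcases Nat.eq_zero_or_pos V.card with h | h
    · rw [card_eq_zero] at h
      rw [h] at hNbsum
      simp only [sum_empty] at hNbsum
      have h6 : 0 < δ / 2 * n ^ 2 := by positivity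
      linarith only [h6, hsum1, hNbsum]
    · exact h
  have hVne : V.Nonempty := card_pos.1 hVpos
  have hsq : δ ^ 2 * n ^ 3 / 4 ≤ ∑ v ∈ V, ((Nb v).card : ℝ) ^ 2 := by
    have h1 : (∑ v ∈ V, ((Nb v).card : ℝ)) ^ 2 ≤ V.card * ∑ v ∈ V, ((Nb v).card : ℝ) ^ 2 :=
      sq_sum_le_card_mul_sum_sq
    have h2s : 0 ≤ ∑ v ∈ V, ((Nb v).card : ℝ) ^ 2 := sum_nonneg fun v _ => sq_nonneg _
    have h20 : (0 : ℝ) ≤ δ / 2 * n ^ 2 := by positivity
    have h2a : (δ / 2 * n ^ 2) ^ 2 ≤ (∑ v ∈ V, ((Nb v).card : ℝ)) ^ 2 := by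
      rw [hNbsum]
      exact pow_le_pow_left₀ h20 hsum1 2
    have h2b := mul_le_mul_of_nonneg_right hV h2s
    have h2 : (δ / 2 * n ^ 2) ^ 2 ≤ n * ∑ v ∈ V, ((Nb v).card : ℝ) ^ 2 := h2a.trans (h1.trans h2b)
    have h3 : n * (δ ^ 2 * n ^ 3 / 4) ≤ n * ∑ v ∈ V, ((Nb v).card : ℝ) ^ 2 := by
      have h4 : n * (δ ^ 2 * n ^ 3 / 4) = (δ / 2 * n ^ 2) ^ 2 := by ring
      rw [h4]
      exact h2
    exact le_of_mul_le_mul_left h3 hn
  obtain ⟨v0, hv0, hv0'⟩ : ∃ v ∈ V, δ ^ 2 * n ^ 2 / 8 ≤ ((Nb v).card : ℝ) ^ 2 - 64 / δ ^ 2 * b v := by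
    apply exists_le_of_sum_le hVne
    rw [sum_const, nsmul_eq_mul, sum_sub_distrib, ← mul_sum]
    have h1 : 64 / δ ^ 2 * ∑ v ∈ V, b v ≤ δ ^ 2 * n ^ 3 / 8 := by
      calc 64 / δ ^ 2 * ∑ v ∈ V, b v ≤ 64 / δ ^ 2 * (n ^ 2 * θ) :=
            mul_le_mul_of_nonneg_left hbsum (by positivity)
        _ = δ ^ 2 * n ^ 3 / 8 := by rw [hθ]; exact aux1 δ n hδ
    have h2 : (V.card : ℝ) * (δ ^ 2 * n ^ 2 / 8) ≤ δ ^ 2 * n ^ 3 / 8 := by
      calc (V.card : ℝ) * (δ ^ 2 * n ^ 2 / 8) ≤ n * (δ ^ 2 * n ^ 2 / 8) :=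
            mul_le_mul_of_nonneg_right hV (by positivity)
        _ = _ := by ring
    have h3 : δ ^ 2 * n ^ 3 / 4 = δ ^ 2 * n ^ 3 / 8 + δ ^ 2 * n ^ 3 / 8 := by ring
    linarith only [h1, h2, h3, hsq]
  set U1 := Nb v0 with hU1
  obtain ⟨N1, hN1⟩ : ∃ N1 : ℝ, N1 = (U1.card : ℝ) := ⟨_, rfl⟩
  rw [← hN1] at hv0'
  have hb0 : 0 ≤ b v0 := by simp only [hb]; exact Nat.cast_nonneg _
  have hN1sq : δ ^ 2 * n ^ 2 / 8 ≤ N1 ^ 2 := by
    have h6 : 0 ≤ 64 / δ ^ 2 * b v0 := mul_nonneg (by positivity) hb0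
    linarith only [h6, hv0']
  have hN1n : 0 ≤ N1 := by rw [hN1]; exact Nat.cast_nonneg _
  have hN1ge : δ * n / 3 ≤ N1 := by
    by_contra hcon
    push Not at hcon
    have h1 : N1 ^ 2 < (δ * n / 3) ^ 2 := by
      apply pow_lt_pow_left₀ hcon hN1n (by norm_num)
    have h2 : (δ * n / 3) ^ 2 ≤ δ ^ 2 * n ^ 2 / 8 := by
      have h3 : 0 ≤ δ ^ 2 * n ^ 2 := by positivity
      have h4 : (δ * n / 3) ^ 2 = δ ^ 2 * n ^ 2 / 9 := by ring
      rw [h4]
      linarith only [h3]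
    linarith only [h1, h2, hN1sq]
  have hN1pos : 0 < N1 := lt_of_lt_of_le (by positivity) hN1ge
  have hb1 : b v0 ≤ δ ^ 2 * N1 ^ 2 / 64 := by
    have h1 : 64 / δ ^ 2 * b v0 ≤ N1 ^ 2 := by
      have h6 : 0 ≤ δ ^ 2 * n ^ 2 / 8 := by positivity
      linarith only [h6, hv0']
    have h2 : b v0 = δ ^ 2 / 64 * (64 / δ ^ 2 * b v0) := aux2 δ _ hδ
    rw [h2]
    calc δ ^ 2 / 64 * (64 / δ ^ 2 * b v0) ≤ δ ^ 2 / 64 * N1 ^ 2 :=
          mul_le_mul_of_nonneg_left h1 (by positivity)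
      _ = _ := by ring
  have hU1U' : U1 ⊆ U' := filter_subset _ _
  have hU1U : U1 ⊆ U := hU1U'.trans (filter_subset _ _)
  -- the two sets
  set c : α → ℝ := fun u => ((U1.filter fun u' => cod u u' < θ).card : ℝ) with hc
  set d : β → ℝ := fun v => ((U1.filter fun u => E u v).card : ℝ) with hd
  set A' := U1.filter fun u => c u ≤ δ / 8 * N1 with hA'
  set B' := V.filter fun v => δ / 4 * N1 ≤ d v with hB'
  set C := U1.filter fun u => ¬ c u ≤ δ / 8 * N1 with hC
  have hcsum : ∑ u ∈ U1, c u = b v0 := by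
    simp only [hc, hb]
    have e1 : ((Nb v0 ×ˢ Nb v0).filter fun q => cod q.1 q.2 < θ).card =
        ∑ u ∈ U1, (U1.filter fun u' => cod u u' < θ).card := by
      rw [card_filter, sum_product]
      refine sum_congr rfl fun u _ => ?_
      rw [card_filter]
    rw [e1]
    push_cast
    rfl
  have hCc : (C.card : ℝ) ≤ δ / 8 * N1 := by
    have h1 : (C.card : ℝ) * (δ / 8 * N1) ≤ b v0 := by
      calc (C.card : ℝ) * (δ / 8 * N1) = ∑ _u ∈ C, (δ / 8 * N1) := by rw [sum_const, nsmul_eq_mul]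
        _ ≤ ∑ u ∈ C, c u := sum_le_sum fun u hu => (not_le.1 (mem_filter.1 hu).2).le
        _ ≤ ∑ u ∈ U1, c u := sum_le_sum_of_subset_of_nonneg (filter_subset _ _)
            fun u _ _ => by simp only [hc]; exact Nat.cast_nonneg _
        _ = b v0 := hcsum
    have h2 : (C.card : ℝ) * (δ / 8 * N1) ≤ δ / 8 * N1 * (δ / 8 * N1) := by
      calc (C.card : ℝ) * (δ / 8 * N1) ≤ δ ^ 2 * N1 ^ 2 / 64 := h1.trans hb1
        _ = _ := by ring
    exact le_of_mul_le_mul_right h2 (by positivity)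
  have hdsum : δ / 2 * n * N1 ≤ ∑ v ∈ V, d v := by
    have e1 : ∑ v ∈ V, d v = ∑ u ∈ U1, deg u := by
      simp only [hd, hdeg, card_filter, Nat.cast_sum]
      rw [sum_comm]
    rw [e1]
    calc δ / 2 * n * N1 = ∑ _u ∈ U1, (δ / 2 * n) := by rw [sum_const, nsmul_eq_mul, hN1]; ring
      _ ≤ ∑ u ∈ U1, deg u := sum_le_sum fun u hu => (mem_filter.1 (hU1U' hu)).2
  have hdsum' : δ / 4 * n * N1 ≤ ∑ v ∈ B', d v := by
    have h1 : ∑ v ∈ V, d v = ∑ v ∈ B', d v + ∑ v ∈ V.filter (fun v => ¬ δ / 4 * N1 ≤ d v), d v :=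
      (sum_filter_add_sum_filter_not _ _ _).symm
    have h2 : ∑ v ∈ V.filter (fun v => ¬ δ / 4 * N1 ≤ d v), d v ≤ n * (δ / 4 * N1) := by
      calc ∑ v ∈ V.filter (fun v => ¬ δ / 4 * N1 ≤ d v), d v
          ≤ ∑ _v ∈ V.filter (fun v => ¬ δ / 4 * N1 ≤ d v), (δ / 4 * N1) :=
            sum_le_sum fun v hv => (not_le.1 (mem_filter.1 hv).2).le
        _ = (V.filter (fun v => ¬ δ / 4 * N1 ≤ d v)).card * (δ / 4 * N1) := by
            rw [sum_const, nsmul_eq_mul]
        _ ≤ n * (δ / 4 * N1) := by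
            apply mul_le_mul_of_nonneg_right _ (by positivity)
            exact le_trans (by exact_mod_cast card_le_card (filter_subset _ _)) hV
    have h3 : n * (δ / 4 * N1) = δ / 4 * n * N1 := by ring
    have h4 : δ / 2 * n * N1 = δ / 4 * n * N1 + δ / 4 * n * N1 := by ring
    linarith only [h1, h2, h3, h4, hdsum]
  refine ⟨A', (filter_subset _ _).trans hU1U, B', filter_subset _ _, ?_, ?_⟩
  · -- edges
    have e1 : (((A' ×ˢ B').filter fun q => E q.1 q.2).card : ℝ) =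
        ∑ v ∈ B', ((A'.filter fun u => E u v).card : ℝ) := by
      rw [card_filter, sum_product_right]
      push_cast
      refine sum_congr rfl fun v _ => ?_
      rw [card_filter]
      push_cast
      rfl
    rw [e1]
    have h1 : ∀ v ∈ B', d v / 2 ≤ ((A'.filter fun u => E u v).card : ℝ) := by
      intro v hv
      have h2 : (U1.filter fun u => E u v) ⊆ (A'.filter fun u => E u v) ∪ C := by
        intro u hu
        rw [mem_filter] at hu
        by_cases h : c u ≤ δ / 8 * N1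
        · exact mem_union_left _ (mem_filter.2 ⟨mem_filter.2 ⟨hu.1, h⟩, hu.2⟩)
        · exact mem_union_right _ (mem_filter.2 ⟨hu.1, h⟩)
      have h3 : d v ≤ ((A'.filter fun u => E u v).card : ℝ) + C.card := by
        have := (card_le_card h2).trans (card_union_le _ _)
        simp only [hd]
        exact_mod_cast this
      have h4 : δ / 4 * N1 ≤ d v := (mem_filter.1 hv).2
      linarith only [h3, h4, hCc]
    calc δ ^ 2 / 24 * n ^ 2 = δ / 8 * n * (δ * n / 3) := by ring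
      _ ≤ δ / 8 * n * N1 := mul_le_mul_of_nonneg_left hN1ge (by positivity)
      _ ≤ (∑ v ∈ B', d v) / 2 := by linarith only [hdsum']
      _ = ∑ v ∈ B', d v / 2 := by rw [sum_div]
      _ ≤ _ := sum_le_sum h1
  · intro u hu v hv
    have huc : c u ≤ δ / 8 * N1 := (mem_filter.1 hu).2
    have hvd : δ / 4 * N1 ≤ d v := (mem_filter.1 hv).2
    set M := U1.filter fun u1 => E u1 v ∧ ¬ cod u u1 < θ with hM
    have hMc : d v ≤ M.card + c u := by
      have h2 : (U1.filter fun u1 => E u1 v) ⊆ M ∪ (U1.filter fun u' => cod u u' < θ) := by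
        intro w hw
        rw [mem_filter] at hw
        by_cases hbw : cod u w < θ
        · exact mem_union_right _ (mem_filter.2 ⟨hw.1, hbw⟩)
        · exact mem_union_left _ (mem_filter.2 ⟨hw.1, hw.2, hbw⟩)
      have := (card_le_card h2).trans (card_union_le _ _)
      simp only [hd, hc]
      exact_mod_cast this
    have hMn : δ / 8 * N1 ≤ M.card := by linarith only [hMc, huc, hvd]
    have hPge : ∑ u1 ∈ M, cod u u1 ≤
        (((U ×ˢ V).filter fun q => E u q.2 ∧ E q.1 q.2 ∧ E q.1 v).card : ℝ) := by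
      rw [card_filter, sum_product]
      push_cast
      calc ∑ u1 ∈ M, cod u u1
          ≤ ∑ u1 ∈ M, ∑ v1 ∈ V, (if E u v1 ∧ E u1 v1 ∧ E u1 v then (1 : ℝ) else 0) := by
            refine sum_le_sum fun u1 hu1' => ?_
            have : E u1 v := (mem_filter.1 hu1').2.1
            simp only [hcod, card_filter, this, and_true]
            push_cast
            exact le_refl _
        _ ≤ _ := by
            apply sum_le_sum_of_subset_of_nonneg
            · exact (filter_subset _ _).trans hU1U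
            · intro i _ _
              positivity
    have h3 : (M.card : ℝ) * θ ≤ ∑ u1 ∈ M, cod u u1 := by
      calc (M.card : ℝ) * θ = ∑ _u1 ∈ M, θ := by rw [sum_const, nsmul_eq_mul]
        _ ≤ _ := sum_le_sum fun u1 hu1' => not_lt.1 (mem_filter.1 hu1').2.2
    calc δ ^ 6 / 12288 * n ^ 2 = δ / 8 * (δ * n / 3) * θ := by rw [hθ]; ring
      _ ≤ δ / 8 * N1 * θ := by
          apply mul_le_mul_of_nonneg_right _ (by positivity)
          exact mul_le_mul_of_nonneg_left hN1ge (by positivity)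
      _ ≤ M.card * θ := mul_le_mul_of_nonneg_right hMn (by positivity)
      _ ≤ _ := h3.trans hPge

end Pool.Agent.Run7.h84.US
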