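import Mathlib

/-! # Ruzsa calculus for dilates: the set of the `ρ` for which `W + ρ X` is small is almost a field -/

set_option autoImplicit false

namespace Pool.Agent.Run7.h84.US

open Finset
open scoped Pointwise

variable {F : Type*} [Field F]

/-- The values which can be obtained from `0`, `1` and the elements of `T` by field operations
arranged in `J` layers. -/
def Gen (T : Set F) : ℕ → Set F
  | 0 => {0, 1} ∪ T
  | J + 1 => {z | ∃ x ∈ Gen T J, ∃ y ∈ Gen T J,
      z = x ∨ z = x + y ∨ z = x - y ∨ z = x * y ∨ z = x / y}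

lemma gen_succ {T : Set F} {J : ℕ} {x : F} (h : x ∈ Gen T J) : x ∈ Gen T (J + 1) :=
  ⟨x, h, x, h, Or.inl rfl⟩

lemma gen_mono {T : Set F} {J J' : ℕ} (hJ : J ≤ J') {x : F} (h : x ∈ Gen T J) : x ∈ Gen T J' := by
  induction J', hJ using Nat.le_induction with
  | base => exact h
  | succ n _ ih => exact gen_succ ih

variable [DecidableEq F]

/-- the dilate `ρ X` -/
def dil (ρ : F) (X : Finset F) : Finset F := X.image fun x => ρ * x

lemma card_dil {ρ : F} (h : ρ ≠ 0) (X : Finset F) : (dil ρ X).card = X.card :=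
  card_image_of_injective _ fun _ _ h' => mul_left_cancel₀ h h'

lemma dil_dil (ρ σ : F) (X : Finset F) : dil ρ (dil σ X) = dil (ρ * σ) X := by
  unfold dil
  rw [image_image]
  refine image_congr fun x _ => ?_
  simp only [Function.comp]
  ring

lemma dil_one (X : Finset F) : dil 1 X = X := by
  unfold dil
  simp

lemma dil_add (ρ : F) (X Y : Finset F) : dil ρ (X + Y) = dil ρ X + dil ρ Y := by
  ext z
  simp only [dil, mem_image, mem_add]
  constructor
  · rintro ⟨w, ⟨x, hx, y, hy, rfl⟩, rfl⟩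
    exact ⟨ρ * x, ⟨x, hx, rfl⟩, ρ * y, ⟨y, hy, rfl⟩, by ring⟩
  · rintro ⟨_, ⟨x, hx, rfl⟩, _, ⟨y, hy, rfl⟩, rfl⟩
    exact ⟨x + y, ⟨x, hx, y, hy, rfl⟩, by ring⟩

lemma sub_dil (ρ : F) (X Y : Finset F) : Y - dil ρ X = Y + dil (-ρ) X := by
  ext z
  simp only [dil, mem_image, mem_add, mem_sub]
  constructor
  · rintro ⟨y, hy, _, ⟨x, hx, rfl⟩, rfl⟩
    exact ⟨y, hy, -ρ * x, ⟨x, hx, rfl⟩, by ring⟩
  · rintro ⟨y, hy, _, ⟨x, hx, rfl⟩, rfl⟩
    exact ⟨y, hy, ρ * x, ⟨x, hx, rfl⟩, by ring⟩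

/-- triangle inequality for sums -/
lemma tri {A B C : Finset F} {n L a b : ℝ} (hn : 0 < n) (ha : ((A + B).card : ℝ) ≤ a * n)
    (hb : ((B + C).card : ℝ) ≤ b * n) (hB : n ≤ L * B.card) (hL : 0 ≤ L) (ha0 : 0 ≤ a)
    (hb0 : 0 ≤ b) : ((A + C).card : ℝ) ≤ L * a * b * n := by
  have h1 : ((A + C).card : ℝ) * B.card ≤ (A + B).card * (B + C).card := by
    exact_mod_cast ruzsa_triangle_inequality_add_add_add A B C
  have h2 : ((A + C).card : ℝ) * n ≤ L * a * b * n * n := by
    calc ((A + C).card : ℝ) * n ≤ (A + C).card * (L * B.card) :=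
          mul_le_mul_of_nonneg_left hB (by positivity)
      _ = L * ((A + C).card * B.card) := by ring
      _ ≤ L * ((A + B).card * (B + C).card) := mul_le_mul_of_nonneg_left h1 hL
      _ ≤ L * ((a * n) * (b * n)) := by
          apply mul_le_mul_of_nonneg_left _ hL
          exact mul_le_mul ha hb (by positivity) (by positivity)
      _ = _ := by ring
  exact le_of_mul_le_mul_right h2 hn

/-- triangle inequality for differences -/
lemma tri_sub {A B C : Finset F} {n L a b : ℝ} (hn : 0 < n) (ha : ((A + B).card : ℝ) ≤ a * n)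
    (hb : ((B + C).card : ℝ) ≤ b * n) (hB : n ≤ L * B.card) (hL : 0 ≤ L) (ha0 : 0 ≤ a)
    (hb0 : 0 ≤ b) : ((A - C).card : ℝ) ≤ L * a * b * n := by
  have h1 : ((A - C).card : ℝ) * B.card ≤ (A + B).card * (B + C).card := by
    have := ruzsa_triangle_inequality_sub_add_add A B C
    rw [add_comm C B] at this
    exact_mod_cast this
  have h2 : ((A - C).card : ℝ) * n ≤ L * a * b * n * n := by
    calc ((A - C).card : ℝ) * n ≤ (A - C).card * (L * B.card) :=
          mul_le_mul_of_nonneg_left hB (by positivity)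
      _ = L * ((A - C).card * B.card) := by ring
      _ ≤ L * ((A + B).card * (B + C).card) := mul_le_mul_of_nonneg_left h1 hL
      _ ≤ L * ((a * n) * (b * n)) := by
          apply mul_le_mul_of_nonneg_left _ hL
          exact mul_le_mul ha hb (by positivity) (by positivity)
      _ = _ := by ring
  exact le_of_mul_le_mul_right h2 hn

/-- `W` and `X` have about `n` elements and `W + X` is small -/
structure Base (W X : Finset F) (n L : ℝ) : Prop where
  hn : 0 < n
  hL : 1 ≤ L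
  hW : (W.card : ℝ) ≤ n
  hX : (X.card : ℝ) ≤ n
  hW' : n ≤ L * W.card
  hX' : n ≤ L * X.card
  hWX : ((W + X).card : ℝ) ≤ L * n

lemma Base.mono {W X : Finset F} {n L L' : ℝ} (h : Base W X n L) (hL : L ≤ L') : Base W X n L' where
  hn := h.hn
  hL := h.hL.trans hL
  hW := h.hW
  hX := h.hX
  hW' := h.hW'.trans (mul_le_mul_of_nonneg_right hL (by positivity))
  hX' := h.hX'.trans (mul_le_mul_of_nonneg_right hL (by positivity))
  hWX := h.hWX.trans (mul_le_mul_of_nonneg_right hL h.hn.le)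

section
variable {W X : Finset F} {n L : ℝ}

lemma Base.nonempty (h : Base W X n L) : W.Nonempty := by
  rw [← card_pos]
  rcases Nat.eq_zero_or_pos W.card with h0 | h0
  · exfalso
    have := h.hW'
    rw [h0] at this
    have h1 := h.hn
    simp at this
    linarith
  · exact h0

lemma Base.ww (h : Base W X n L) : ((W + W).card : ℝ) ≤ L ^ 3 * n := by
  have h0 : (0 : ℝ) ≤ L := le_trans zero_le_one h.hL
  have h1 := tri (A := W) (B := X) (C := W) h.hn h.hWX (by rw [add_comm]; exact h.hWX) h.hX' h0 h0 h0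
  calc ((W + W).card : ℝ) ≤ L * L * L * n := h1
    _ = _ := by ring

lemma Base.xs (h : Base W X n L) {σ : F} (hs : ((W + dil σ X).card : ℝ) ≤ L * n) :
    ((X + dil σ X).card : ℝ) ≤ L ^ 3 * n := by
  have h0 : (0 : ℝ) ≤ L := le_trans zero_le_one h.hL
  have h1 := tri (A := X) (B := W) (C := dil σ X) h.hn (by rw [add_comm]; exact h.hWX) hs h.hW'
    h0 h0 h0
  calc ((X + dil σ X).card : ℝ) ≤ L * L * L * n := h1
    _ = _ := by ring

lemma Base.neg (h : Base W X n L) {σ : F} (hs : ((W + dil σ X).card : ℝ) ≤ L * n) :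
    ((W + dil (-σ) X).card : ℝ) ≤ L ^ 5 * n := by
  have h0 : (0 : ℝ) ≤ L := le_trans zero_le_one h.hL
  rw [← sub_dil]
  have h1 := tri_sub (A := W) (B := W) (C := dil σ X) h.hn h.ww hs h.hW' h0 (by positivity) h0
  calc ((W - dil σ X).card : ℝ) ≤ L * L ^ 3 * L * n := h1
    _ = _ := by ring

lemma Base.inv (h : Base W X n L) {σ : F} (hs : ((W + dil σ X).card : ℝ) ≤ L * n) :
    ((W + dil σ⁻¹ X).card : ℝ) ≤ L ^ 5 * n := by
  have h0 : (0 : ℝ) ≤ L := le_trans zero_le_one h.hL
  by_cases hσ : σ = 0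
  · subst hσ
    rw [inv_zero]
    calc ((W + dil 0 X).card : ℝ) ≤ L * n := hs
      _ ≤ L ^ 5 * n := by
          apply mul_le_mul_of_nonneg_right _ h.hn.le
          exact le_self_pow₀ h.hL (by norm_num)
  · have e1 : (W + dil σ⁻¹ X).card = (dil σ W + X).card := by
      rw [← card_dil hσ (W + dil σ⁻¹ X), dil_add, dil_dil, mul_inv_cancel₀ hσ, dil_one]
    rw [e1]
    have h1 := tri (A := dil σ W) (B := dil σ X) (C := X) (L := L) (a := L) (b := L ^ 3) h.hn
      (by rw [← dil_add, card_dil hσ]; exact h.hWX)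
      (by rw [add_comm]; exact h.xs hs) (by rw [card_dil hσ]; exact h.hX') h0 h0 (by positivity)
    calc ((dil σ W + X).card : ℝ) ≤ L * L * L ^ 3 * n := h1
      _ = _ := by ring

lemma Base.mul (h : Base W X n L) {ρ σ : F} (hr : ((W + dil ρ X).card : ℝ) ≤ L * n)
    (hs : ((W + dil σ X).card : ℝ) ≤ L * n) :
    ((W + dil (ρ * σ) X).card : ℝ) ≤ L ^ 5 * n := by
  have h0 : (0 : ℝ) ≤ L := le_trans zero_le_one h.hL
  by_cases hρ : ρ = 0
  · subst hρ
    rw [zero_mul]
    calc ((W + dil 0 X).card : ℝ) ≤ L * n := hr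
      _ ≤ L ^ 5 * n := by
          apply mul_le_mul_of_nonneg_right _ h.hn.le
          exact le_self_pow₀ h.hL (by norm_num)
  · have h1 := tri (A := W) (B := dil ρ X) (C := dil (ρ * σ) X) (L := L) (a := L) (b := L ^ 3) h.hn
      hr (by rw [← dil_dil, ← dil_add, card_dil hρ]; exact h.xs hs)
      (by rw [card_dil hρ]; exact h.hX') h0 h0 (by positivity)
    calc ((W + dil (ρ * σ) X).card : ℝ) ≤ L * L * L ^ 3 * n := h1
      _ = _ := by ring

lemma Base.add (h : Base W X n L) {ρ σ : F} (hr : ((W + dil ρ X).card : ℝ) ≤ L * n)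
    (hs : ((W + dil σ X).card : ℝ) ≤ L * n) :
    ((W + dil (ρ + σ) X).card : ℝ) ≤ 27 * L ^ 12 * n := by
  have hL := h.hL
  have h0 : (0 : ℝ) < L := lt_of_lt_of_le zero_lt_one hL
  set B := W ∪ dil ρ X ∪ dil σ X with hB
  have hWB : ((W + B).card : ℝ) ≤ 3 * L ^ 3 * n := by
    have e1 : W + B ⊆ (W + W) ∪ (W + dil ρ X) ∪ (W + dil σ X) := by
      rw [hB, add_union, add_union]
    have e2 : ((W + B).card : ℝ) ≤ (W + W).card + (W + dil ρ X).card + (W + dil σ X).card := by
      have := (card_le_card e1).trans ((card_union_le _ _).trans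
        (Nat.add_le_add_right (card_union_le _ _) _))
      exact_mod_cast this
    have e3 : L * n ≤ L ^ 3 * n :=
      mul_le_mul_of_nonneg_right (le_self_pow₀ hL (by norm_num)) h.hn.le
    have := h.ww
    linarith
  have hsub : W + dil (ρ + σ) X ⊆ 3 • B := by
    intro z hz
    rw [mem_add] at hz
    obtain ⟨w, hw, y, hy, rfl⟩ := hz
    obtain ⟨x, hx, rfl⟩ := mem_image.1 hy
    have e : 3 • B = B + B + B := by
      rw [show (3 : ℕ) = 2 + 1 from rfl, add_nsmul, two_nsmul, one_nsmul]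
    rw [e]
    have : w + (ρ + σ) * x = w + ρ * x + σ * x := by ring
    rw [this]
    refine add_mem_add (add_mem_add ?_ ?_) ?_
    · exact mem_union_left _ (mem_union_left _ hw)
    · exact mem_union_left _ (mem_union_right _ (mem_image_of_mem _ hx))
    · exact mem_union_right _ (mem_image_of_mem _ hx)
  have hpl := pluennecke_ruzsa_inequality_nsmul_add h.nonempty B 3
  have hpl' : ((3 • B).card : ℝ) ≤ (((W + B).card : ℝ) / W.card) ^ 3 * W.card := by
    have h7 := (NNRat.cast_le (K := ℝ)).2 hpl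
    push_cast at h7
    exact h7
  have hWpos : (0 : ℝ) < W.card := by exact_mod_cast card_pos.2 h.nonempty
  have hratio : ((W + B).card : ℝ) / W.card ≤ 3 * L ^ 4 := by
    rw [div_le_iff₀ hWpos]
    calc ((W + B).card : ℝ) ≤ 3 * L ^ 3 * n := hWB
      _ ≤ 3 * L ^ 3 * (L * W.card) := mul_le_mul_of_nonneg_left h.hW' (by positivity)
      _ = _ := by ring
  calc ((W + dil (ρ + σ) X).card : ℝ) ≤ ((3 • B).card : ℝ) := by
        exact_mod_cast card_le_card hsub
    _ ≤ (((W + B).card : ℝ) / W.card) ^ 3 * W.card := hpl'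
    _ ≤ (3 * L ^ 4) ^ 3 * n := by
        apply mul_le_mul _ h.hW (by positivity) (by positivity)
        exact pow_le_pow_left₀ (by positivity) hratio 3
    _ = _ := by ring

/-- one layer of field operations -/
lemma Base.step (h : Base W X n L) {T : Set F} {J : ℕ}
    (hT : ∀ ρ ∈ Gen T J, ((W + dil ρ X).card : ℝ) ≤ L * n) :
    ∀ ρ ∈ Gen T (J + 1), ((W + dil ρ X).card : ℝ) ≤ 27 * L ^ 60 * n := by
  have hL := h.hL
  have h0 : (0 : ℝ) < L := lt_of_lt_of_le zero_lt_one hL
  have hn := h.hn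
  have hmono : ∀ i : ℕ, i ≤ 60 → L ^ i * n ≤ 27 * L ^ 60 * n := by
    intro i hi
    apply mul_le_mul_of_nonneg_right _ hn.le
    have h1 : L ^ i ≤ L ^ 60 := pow_le_pow_right₀ hL hi
    have h2 : (0 : ℝ) ≤ L ^ 60 := by positivity
    linarith
  have h5 : L ≤ L ^ 5 := le_self_pow₀ hL (by norm_num)
  have h5n : ∀ {c : ℝ}, c ≤ L * n → c ≤ L ^ 5 * n := fun hc =>
    hc.trans (mul_le_mul_of_nonneg_right h5 hn.le)
  rintro ρ ⟨x, hx, y, hy, h1 | h1 | h1 | h1 | h1⟩
  · rw [h1]
    refine (hT x hx).trans ?_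
    have := hmono 1 (by norm_num)
    rwa [pow_one] at this
  · rw [h1]
    refine (h.add (hT x hx) (hT y hy)).trans ?_
    apply mul_le_mul_of_nonneg_right _ hn.le
    have : L ^ 12 ≤ L ^ 60 := pow_le_pow_right₀ hL (by norm_num)
    linarith
  · rw [h1, sub_eq_add_neg]
    have := (h.mono h5).add (h5n (hT x hx)) (h.neg (hT y hy))
    refine this.trans (le_of_eq ?_)
    ring
  · rw [h1]
    exact (h.mul (hT x hx) (hT y hy)).trans (hmono 5 (by norm_num))
  · rw [h1, div_eq_mul_inv]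
    have := (h.mono h5).mul (h5n (hT x hx)) (h.inv (hT y hy))
    refine this.trans ?_
    rw [← pow_mul]
    exact hmono 25 (by norm_num)

end

/-- **Ruzsa calculus for dilates.** -/
theorem gen_sm (J : ℕ) : ∃ (c : ℝ) (e : ℕ), 1 ≤ c ∧ 1 ≤ e ∧
    ∀ (T : Set F) (W X : Finset F) (n L : ℝ), Base W X n L →
      (∀ ρ ∈ T, ((W + dil ρ X).card : ℝ) ≤ L * n) →
      ∀ ρ ∈ Gen T J, ((W + dil ρ X).card : ℝ) ≤ c * L ^ e * n := by
  induction J with
  | zero =>
    refine ⟨1, 1, le_rfl, le_rfl, ?_⟩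
    intro T W X n L h hT ρ hρ
    rw [one_mul, pow_one]
    rcases hρ with hρ | hρ
    · rcases hρ with hρ | hρ
      · rw [hρ]
        have e1 : W + dil 0 X ⊆ W := by
          intro z hz
          rw [mem_add] at hz
          obtain ⟨w, hw, y, hy, rfl⟩ := hz
          obtain ⟨x, hx, rfl⟩ := mem_image.1 hy
          simpa using hw
        calc ((W + dil 0 X).card : ℝ) ≤ W.card := by exact_mod_cast card_le_card e1
          _ ≤ n := h.hW
          _ = 1 * n := (one_mul n).symm
          _ ≤ L * n := mul_le_mul_of_nonneg_right h.hL h.hn.le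
      · rw [Set.mem_singleton_iff] at hρ
        rw [hρ, dil_one]
        exact h.hWX
    · exact hT ρ hρ
  | succ J ih =>
    obtain ⟨c, e, hc, he, ih⟩ := ih
    refine ⟨27 * c ^ 60, 60 * e, ?_, by omega, ?_⟩
    · have : (1 : ℝ) ≤ c ^ 60 := one_le_pow₀ hc
      linarith
    intro T W X n L h hT ρ hρ
    have hL := h.hL
    have h1 : L ≤ c * L ^ e := by
      calc L = 1 * L := (one_mul L).symm
        _ ≤ c * L ^ e := mul_le_mul hc (le_self_pow₀ hL (by omega)) (by linarith) (by linarith)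
    have h2 := (h.mono h1).step (T := T) (J := J) (fun ρ hρ => ih T W X n L h hT ρ hρ) ρ hρ
    refine h2.trans (le_of_eq ?_)
    ring

end Pool.Agent.Run7.h84.US
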