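import Mathlib
import Pool.Agent.Run7.h84.US.Graph
import Pool.Agent.Run7.h84.US.Ruzsa

/-! # Sets of slopes for which the target is computable from the slopes -/

set_option autoImplicit false

namespace Pool.Agent.Run7.h84.US

open Finset
open scoped Pointwise

variable {F : Type*} [Field F] [DecidableEq F]

/-- the projection with slope `r` -/
def pr (r : F) (A : Finset (F × F)) : Finset F := A.image fun p => p.1 + r * p.2

/-- the projection with slope infinity -/
def prInf (A : Finset (F × F)) : Finset F := A.image fun p => p.2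

/-- the largest size of a projection with slope infinity or in `S` -/
def bg (S : Finset F) (A : Finset (F × F)) : ℕ :=
  max (prInf A).card (S.sup fun r => (pr r A).card)

lemma pr_le_bg {S : Finset F} {r : F} (hr : r ∈ S) (A : Finset (F × F)) :
    (pr r A).card ≤ bg S A :=
  le_max_of_le_right (le_sup (f := fun r => (pr r A).card) hr)

lemma prInf_le_bg (S : Finset F) (A : Finset (F × F)) : (prInf A).card ≤ bg S A :=
  le_max_left _ _

lemma bg_pos {S : Finset F} {A : Finset (F × F)} (hA : A.Nonempty) : 0 < bg S A :=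
  lt_of_lt_of_le (card_pos.2 (hA.image _)) (prInf_le_bg S A)

/-- the cross ratios of the slopes in `S` with respect to `∞`, `a`, `b` -/
def crs (S : Finset F) (a b : F) : Set F := {t | ∃ r ∈ S, t = (r - a) / (b - a)}

/-- few values on a complete bipartite graph, if there are many paths of length three -/
lemma few_values {U V A' B' R : Finset F} {E : F → F → Prop} [∀ x y, Decidable (E x y)] {μ : F}
    (hμ : μ ≠ 0) {n P : ℝ} (hP : 0 < P)
    (hR : (R.card : ℝ) ≤ n) (hE : ∀ x ∈ U, ∀ w ∈ V, E x w → w + μ * x ∈ R)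
    (hA : A' ⊆ U) (hB : B' ⊆ V)
    (hpath : ∀ u ∈ A', ∀ v ∈ B', P ≤
      (((U ×ˢ V).filter fun q => E u q.2 ∧ E q.1 q.2 ∧ E q.1 v).card : ℝ)) :
    ((B' + dil μ A').card : ℝ) ≤ n ^ 3 / P := by
  classical
  have hch : ∀ z ∈ B' + dil μ A', ∃ q : F × F, q.1 ∈ A' ∧ q.2 ∈ B' ∧ z = q.2 + μ * q.1 := by
    intro z hz
    rw [mem_add] at hz
    obtain ⟨w, hw, y, hy, rfl⟩ := hz
    obtain ⟨x, hx, rfl⟩ := mem_image.1 hy
    exact ⟨(x, w), hx, hw, rfl⟩
  choose! f hf1 hf2 hf3 using hch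
  set Z := B' + dil μ A' with hZ
  set T : Finset (Σ _ : F, F × F) := Z.sigma fun z =>
    (U ×ˢ V).filter fun q => E (f z).1 q.2 ∧ E q.1 q.2 ∧ E q.1 (f z).2 with hT
  have hcard : T.card ≤ (R ×ˢ R ×ˢ R).card := by
    apply card_le_card_of_injOn (fun t => ((f t.1).2 + μ * t.2.1, t.2.2 + μ * t.2.1,
      t.2.2 + μ * (f t.1).1))
    · rintro ⟨z, q⟩ ht
      rw [mem_coe, hT, mem_sigma, mem_filter, mem_product] at ht
      obtain ⟨hz, ⟨hq1, hq2⟩, h1, h2, h3⟩ := ht
      simp only [coe_product, Set.mem_prod, mem_coe]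
      exact ⟨hE _ hq1 _ (hB (hf2 z hz)) h3, hE _ hq1 _ hq2 h2, hE _ (hA (hf1 z hz)) _ hq2 h1⟩
    · rintro ⟨z, q⟩ ht ⟨z', q'⟩ ht' he
      rw [mem_coe, hT, mem_sigma, mem_filter, mem_product] at ht ht'
      simp only [Prod.mk.injEq] at he
      obtain ⟨e1, e2, e3⟩ := he
      have hz : z = z' := by
        have h1 := hf3 z ht.1
        have h2 := hf3 z' ht'.1
        rw [h1, h2]
        have : (f z).2 + μ * (f z).1 = ((f z).2 + μ * q.1) - (q.2 + μ * q.1) +
          (q.2 + μ * (f z).1) := by ring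
        rw [this, e1, e2, e3]
        ring
      subst hz
      have hq1 : q.1 = q'.1 := by
        have := add_left_cancel e1
        exact mul_left_cancel₀ hμ this
      have hq2 : q.2 = q'.2 := by
        rw [hq1] at e2
        exact add_right_cancel e2
      have : q = q' := Prod.ext hq1 hq2
      rw [this]
  have h1 : (Z.card : ℝ) * P ≤ T.card := by
    rw [hT, card_sigma]
    push_cast
    calc (Z.card : ℝ) * P = ∑ _z ∈ Z, P := by rw [sum_const, nsmul_eq_mul]
      _ ≤ _ := sum_le_sum fun z hz => hpath _ (hf1 z hz) _ (hf2 z hz)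
  have h2 : (T.card : ℝ) ≤ n ^ 3 := by
    calc (T.card : ℝ) ≤ ((R ×ˢ R ×ˢ R).card : ℝ) := by exact_mod_cast hcard
      _ = (R.card : ℝ) ^ 3 := by rw [card_product, card_product]; push_cast; ring
      _ ≤ n ^ 3 := pow_le_pow_left₀ (by positivity) hR 3
  rw [le_div_iff₀ hP]
  exact h1.trans h2

/-- a computation -/
lemma final_arith {n δ c m : ℝ} {e : ℕ} (hn : 0 < n) (hδ : 0 < δ) (hm : δ = m / n ^ 2)
    (h : δ ^ 2 / 24 * n ^ 2 ≤ c * (12288 / δ ^ 6) ^ e * n) :
    m ^ (6 * e + 2) ≤ 24 * c * 12288 ^ e * n ^ (2 * (6 * e + 2) - 1) := by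
  have h1 : n * δ ^ (6 * e + 2) ≤ 24 * c * 12288 ^ e := by
    have h2 : c * (12288 / δ ^ 6) ^ e * n = c * 12288 ^ e / δ ^ (6 * e) * n := by
      rw [div_pow, ← pow_mul]
      ring
    rw [h2] at h
    have h3 : 0 < δ ^ (6 * e) := by positivity
    have h4 : δ ^ 2 / 24 * n ^ 2 * δ ^ (6 * e) ≤ c * 12288 ^ e * n := by
      calc δ ^ 2 / 24 * n ^ 2 * δ ^ (6 * e) ≤ c * 12288 ^ e / δ ^ (6 * e) * n * δ ^ (6 * e) :=
            mul_le_mul_of_nonneg_right h h3.le
        _ = c * 12288 ^ e * n * (δ ^ (6 * e) / δ ^ (6 * e)) := by ring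
        _ = _ := by rw [div_self h3.ne', mul_one]
    have h5 : n * (n * δ ^ (6 * e + 2)) ≤ n * (24 * c * 12288 ^ e) := by
      calc n * (n * δ ^ (6 * e + 2)) = 24 * (δ ^ 2 / 24 * n ^ 2 * δ ^ (6 * e)) := by
            rw [pow_add]; ring
        _ ≤ 24 * (c * 12288 ^ e * n) := by linarith
        _ = _ := by ring
    exact le_of_mul_le_mul_left h5 hn
  set g := 6 * e + 2 with hg
  have e1 : n ^ (2 * g) = n ^ (2 * g - 1) * n := by
    rw [← pow_succ]
    congr 1
  have h6 : n * δ ^ g * n ^ (2 * g) = m ^ g * n := by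
    rw [hm, div_pow, ← pow_mul]
    have : n ^ (2 * g) ≠ 0 := by positivity
    field_simp
  have h7 : m ^ g * n ≤ 24 * c * 12288 ^ e * n ^ (2 * g - 1) * n := by
    calc m ^ g * n = n * δ ^ g * n ^ (2 * g) := h6.symm
      _ ≤ 24 * c * 12288 ^ e * n ^ (2 * g) := mul_le_mul_of_nonneg_right h1 (by positivity)
      _ = _ := by rw [e1]; ring
  exact le_of_mul_le_mul_right h7 hn

/-- **The positive theorem.** If the cross ratio of the slope `-1` is computable from the cross
ratios of the slopes, there is a nontrivial inequality. -/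
theorem positive (J : ℕ) : ∃ (C : ℝ) (g : ℕ), 1 ≤ C ∧ 1 ≤ g ∧
    ∀ (S : Finset F) (a b : F), a ∈ S → b ∈ S → a ≠ b →
      (1 + a) / (b - a) ∈ Gen (crs S a b) J →
      ∀ A : Finset (F × F), ((pr (-1) A).card : ℝ) ^ g ≤ C * (bg S A : ℝ) ^ (2 * g - 1) := by
  classical
  obtain ⟨c, e, hc, he, hgen⟩ := gen_sm (F := F) (J + 1)
  refine ⟨24 * c * 12288 ^ e, 6 * e + 2, ?_, by omega, ?_⟩
  · have h1 : (1 : ℝ) ≤ 12288 ^ e := one_le_pow₀ (by norm_num)
    have h2 : (1 : ℝ) ≤ c * 12288 ^ e := by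
      calc (1 : ℝ) = 1 * 1 := by ring
        _ ≤ _ := mul_le_mul hc h1 zero_le_one (by linarith)
    linarith
  intro S a b ha hb hab hl A
  have hba : b - a ≠ 0 := sub_ne_zero.2 (Ne.symm hab)
  rcases A.eq_empty_or_nonempty with hA | hA
  · subst hA
    simp only [pr, image_empty, card_empty, Nat.cast_zero]
    rw [zero_pow (by omega)]
    positivity
  obtain ⟨l, hl0⟩ : ∃ l : F, l = (1 + a) / (b - a) := ⟨_, rfl⟩
  rw [← hl0] at hl
  have hl1 : l * (b - a) = 1 + a := by rw [hl0]; field_simp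
  obtain ⟨D, hD⟩ : ∃ D : Finset F, D = pr (-1) A := ⟨_, rfl⟩
  rw [← hD]
  have hch : ∀ d ∈ D, ∃ p : F × F, p ∈ A ∧ p.1 + (-1) * p.2 = d := by
    intro d hd
    rw [hD] at hd
    obtain ⟨p, hp, h⟩ := mem_image.1 hd
    exact ⟨p, hp, h⟩
  choose! s hs1 hs2 using hch
  obtain ⟨N, hN⟩ : ∃ N : ℕ, N = bg S A := ⟨_, rfl⟩
  rw [← hN]
  have hN0 : 0 < N := by rw [hN]; exact bg_pos hA
  obtain ⟨n, hn⟩ : ∃ n : ℝ, n = (N : ℝ) := ⟨_, rfl⟩
  have hn0 : 0 < n := by rw [hn]; exact_mod_cast hN0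
  obtain ⟨E, hE⟩ : ∃ E : F → F → Prop, E = fun x w => ∃ d ∈ D, x = (b - a) * (s d).2 ∧
    w = (s d).1 + a * (s d).2 := ⟨_, rfl⟩
  have hEd : ∀ x w, E x w → ∃ d ∈ D, x = (b - a) * (s d).2 ∧ w = (s d).1 + a * (s d).2 ∧
      w + -l * x = d := by
    intro x w h
    rw [hE] at h
    obtain ⟨d, hd, h1, h2⟩ := h
    refine ⟨d, hd, h1, h2, ?_⟩
    have h3 := hs2 d hd
    rw [h1, h2]
    calc (s d).1 + a * (s d).2 + -l * ((b - a) * (s d).2)
        = (s d).1 + a * (s d).2 - (l * (b - a)) * (s d).2 := by ring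
      _ = (s d).1 + (-1) * (s d).2 := by rw [hl1]; ring
      _ = d := h3
  obtain ⟨U, hU⟩ : ∃ U : Finset F, U = dil (b - a) (prInf A) := ⟨_, rfl⟩
  obtain ⟨V, hV⟩ : ∃ V : Finset F, V = pr a A := ⟨_, rfl⟩
  have hUc : (U.card : ℝ) ≤ n := by
    rw [hU, card_dil hba, hn, hN]
    exact_mod_cast prInf_le_bg S A
  have hVc : (V.card : ℝ) ≤ n := by
    rw [hV, hn, hN]
    exact_mod_cast pr_le_bg ha A
  -- the number of edges
  have hedge : D.card ≤ ((U ×ˢ V).filter fun q => E q.1 q.2).card := by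
    apply card_le_card_of_injOn (fun d => ((b - a) * (s d).2, (s d).1 + a * (s d).2))
    · intro d hd
      rw [mem_coe] at hd
      simp only [coe_filter, mem_product, Set.mem_setOf_eq]
      refine ⟨⟨?_, ?_⟩, ?_⟩
      · rw [hU]
        exact mem_image_of_mem _ (mem_image_of_mem _ (hs1 d hd))
      · rw [hV]
        exact mem_image_of_mem _ (hs1 d hd)
      · rw [hE]
        exact ⟨d, hd, rfl, rfl⟩
    · intro d hd d' hd' h
      rw [mem_coe] at hd hd'
      simp only [Prod.mk.injEq] at h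
      have h2 : (s d).2 = (s d').2 := mul_left_cancel₀ hba h.1
      have h1 : (s d).1 = (s d').1 := by
        have := h.2
        rw [h2] at this
        exact add_right_cancel this
      rw [← hs2 d hd, ← hs2 d' hd', h1, h2]
  obtain ⟨m, hm⟩ : ∃ m : ℝ, m = (D.card : ℝ) := ⟨_, rfl⟩
  have hDne : D.Nonempty := by rw [hD]; exact hA.image _
  have hm0 : 0 < m := by rw [hm]; exact_mod_cast card_pos.2 hDne
  obtain ⟨δ, hδ⟩ : ∃ δ : ℝ, δ = m / n ^ 2 := ⟨_, rfl⟩
  have hδ0 : 0 < δ := by rw [hδ]; positivity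
  have hmn : m ≤ n ^ 2 := by
    rw [hm]
    calc (D.card : ℝ) ≤ (((U ×ˢ V).filter fun q => E q.1 q.2).card : ℝ) := by exact_mod_cast hedge
      _ ≤ ((U ×ˢ V).card : ℝ) := by exact_mod_cast card_le_card (filter_subset _ _)
      _ = (U.card : ℝ) * V.card := by rw [card_product]; push_cast; ring
      _ ≤ n * n := mul_le_mul hUc hVc (by positivity) hn0.le
      _ = n ^ 2 := by ring
  have hδ1 : δ ≤ 1 := by
    rw [hδ, div_le_one (by positivity)]
    exact hmn
  have hEsum : δ * n ^ 2 ≤ ∑ u ∈ U, ((V.filter fun v => E u v).card : ℝ) := by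
    have e1 : ∑ u ∈ U, ((V.filter fun v => E u v).card : ℝ) =
        (((U ×ˢ V).filter fun q => E q.1 q.2).card : ℝ) := by
      rw [card_filter, sum_product]
      push_cast
      refine sum_congr rfl fun u _ => ?_
      rw [card_filter]
      push_cast
      rfl
    rw [e1]
    have e2 : δ * n ^ 2 = m := by rw [hδ]; field_simp
    rw [e2, hm]
    exact_mod_cast hedge
  obtain ⟨A', hA', B', hB', hed, hpath⟩ := graph_lemma U V E n δ hn0 hδ0 hUc hVc hEsum
  -- the values
  have hA'c : (A'.card : ℝ) ≤ n := le_trans (by exact_mod_cast card_le_card hA') hUc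
  have hB'c : (B'.card : ℝ) ≤ n := le_trans (by exact_mod_cast card_le_card hB') hVc
  obtain ⟨L, hL⟩ : ∃ L : ℝ, L = 12288 / δ ^ 6 := ⟨_, rfl⟩
  have hδ6 : δ ^ 6 ≤ 1 := pow_le_one₀ hδ0.le hδ1
  have hδ6' : 0 < δ ^ 6 := by positivity
  have hL1 : 1 ≤ L := by
    rw [hL, le_div_iff₀ hδ6']
    linarith
  have hval : ∀ ρ ∈ crs S a b, ((B' + dil ρ A').card : ℝ) ≤ L * n := by
    rintro ρ ⟨r, hr, rfl⟩
    by_cases hra : r = a
    · have e0 : (r - a) / (b - a) = 0 := by rw [hra, sub_self, zero_div]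
      rw [e0]
      have e1 : B' + dil 0 A' ⊆ B' := by
        intro z hz
        rw [mem_add] at hz
        obtain ⟨w, hw, y, hy, rfl⟩ := hz
        obtain ⟨x, hx, rfl⟩ := mem_image.1 hy
        simpa using hw
      calc ((B' + dil 0 A').card : ℝ) ≤ B'.card := by exact_mod_cast card_le_card e1
        _ ≤ 1 * n := by rw [one_mul]; exact hB'c
        _ ≤ L * n := mul_le_mul_of_nonneg_right hL1 hn0.le
    · have hμ : (r - a) / (b - a) ≠ 0 := div_ne_zero (sub_ne_zero.2 hra) hba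
      have h1 := few_values (U := U) (V := V) (A' := A') (B' := B') (R := pr r A) (E := E) hμ
        (n := n) (P := δ ^ 6 / 12288 * n ^ 2) (by positivity)
        (by rw [hn, hN]; exact_mod_cast pr_le_bg hr A)
        (by
          intro x _ w _ h
          rw [hE] at h
          obtain ⟨d, hd, h1, h2⟩ := h
          have e1 : w + (r - a) / (b - a) * x = (s d).1 + r * (s d).2 := by
            rw [h1, h2]
            field_simp
            ring
          rw [e1]
          exact mem_image_of_mem _ (hs1 d hd))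
        hA' hB' hpath
      refine h1.trans (le_of_eq ?_)
      rw [hL]
      field_simp
  have hedc : (((A' ×ˢ B').filter fun q => E q.1 q.2).card : ℝ) ≤ (A'.card : ℝ) * B'.card := by
    calc (((A' ×ˢ B').filter fun q => E q.1 q.2).card : ℝ) ≤ ((A' ×ˢ B').card : ℝ) := by
          exact_mod_cast card_le_card (filter_subset _ _)
      _ = _ := by rw [card_product]; push_cast; ring
  have hL24 : 24 / δ ^ 2 ≤ L := by
    rw [hL, div_le_div_iff₀ (by positivity) hδ6']
    have : δ ^ 6 ≤ δ ^ 2 := pow_le_pow_of_le_one hδ0.le hδ1 (by norm_num)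
    nlinarith [sq_nonneg δ]
  have hsize : ∀ x y : ℝ, 0 ≤ y → x ≤ n → δ ^ 2 / 24 * n ^ 2 ≤ x * y → n ≤ L * y := by
    intro x y hy hx h
    have h1 : δ ^ 2 / 24 * n ^ 2 ≤ n * y := h.trans (mul_le_mul_of_nonneg_right hx hy)
    have h2 : δ ^ 2 / 24 * n ≤ y := by
      have : n * (δ ^ 2 / 24 * n) ≤ n * y := by
        calc n * (δ ^ 2 / 24 * n) = δ ^ 2 / 24 * n ^ 2 := by ring
          _ ≤ _ := h1
      exact le_of_mul_le_mul_left this hn0
    calc n = 24 / δ ^ 2 * (δ ^ 2 / 24 * n) := by field_simp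
      _ ≤ 24 / δ ^ 2 * y := mul_le_mul_of_nonneg_left h2 (by positivity)
      _ ≤ L * y := mul_le_mul_of_nonneg_right hL24 hy
  have hbase : Base B' A' n L := by
    refine ⟨hn0, hL1, hB'c, hA'c, ?_, ?_, ?_⟩
    · exact hsize A'.card B'.card (by positivity) hA'c (hed.trans hedc)
    · refine hsize B'.card A'.card (by positivity) hB'c ?_
      rw [mul_comm (B'.card : ℝ)]
      exact hed.trans hedc
    · have := hval 1 ⟨b, hb, by rw [div_self hba]⟩
      rwa [dil_one] at this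
  have hneg : -l ∈ Gen (crs S a b) (J + 1) := by
    refine ⟨0, gen_mono (Nat.zero_le J) (Or.inl (Or.inl rfl)), l, hl, Or.inr (Or.inr (Or.inl ?_))⟩
    rw [zero_sub]
  have hfin := hgen (crs S a b) B' A' n L hbase hval (-l) hneg
  have hinj : ((A' ×ˢ B').filter fun q => E q.1 q.2).card ≤ (B' + dil (-l) A').card := by
    apply card_le_card_of_injOn (fun q => q.2 + -l * q.1)
    · intro q hq
      simp only [coe_filter, mem_product, Set.mem_setOf_eq] at hq
      exact add_mem_add hq.1.2 (mem_image_of_mem _ hq.1.1)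
    · intro q hq q' hq' h
      simp only [coe_filter, mem_product, Set.mem_setOf_eq] at hq hq'
      obtain ⟨d, hd, h1, h2, h3⟩ := hEd _ _ hq.2
      obtain ⟨d', hd', h1', h2', h3'⟩ := hEd _ _ hq'.2
      have hdd : d = d' := by rw [← h3, ← h3']; exact h
      subst hdd
      exact Prod.ext (h1.trans h1'.symm) (h2.trans h2'.symm)
  have hineq : δ ^ 2 / 24 * n ^ 2 ≤ c * (12288 / δ ^ 6) ^ e * n := by
    rw [← hL]
    exact hed.trans (le_trans (by exact_mod_cast hinj) hfin)
  have := final_arith hn0 hδ0 hδ hineq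
  rw [← hm, ← hn]
  exact this

end Pool.Agent.Run7.h84.US
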