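import Mathlib
import Pool.Agent.Run7.h84.US.Pos

/-! # Products of sets of points -/

set_option autoImplicit false

namespace Pool.Agent.Run7.h84.US

open Finset

variable {F : Type*} [Field F] [DecidableEq F]

lemma bg_nonempty {S : Finset F} {A : Finset (F × F)} : (0 : ℕ) ≤ bg S A := Nat.zero_le _

/-- the product of two sets of points -/
lemma prod_sets [Infinite F] (A B : Finset (F × F)) : ∃ C : Finset (F × F),
    (pr (-1) C).card = (pr (-1) A).card * (pr (-1) B).card ∧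
    (∀ r : F, (pr r C).card ≤ (pr r A).card * (pr r B).card) ∧
    (prInf C).card ≤ (prInf A).card * (prInf B).card ∧
    (A.Nonempty → B.Nonempty → C.Nonempty) := by
  classical
  set bad : Finset F := (((pr (-1) A ×ˢ pr (-1) A) ×ˢ (pr (-1) B ×ˢ pr (-1) B)).image
    fun q => (q.1.1 - q.1.2) / (q.2.1 - q.2.2)) ∪ {0} with hbad
  obtain ⟨M, hM⟩ := Infinite.exists_notMem_finset bad
  set f : (F × F) × (F × F) → F × F := fun q => (q.1.1 + M * q.2.1, q.1.2 + M * q.2.2) with hf
  have hproj : ∀ r : F, pr r ((A ×ˢ B).image f) =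
      (pr r A ×ˢ pr r B).image fun z => z.1 + M * z.2 := by
    intro r
    ext z
    simp only [pr, mem_image, mem_product, hf, Prod.exists]
    constructor
    · rintro ⟨x, y, ⟨a, b, c, d, ⟨h1, h2⟩, h3⟩, h4⟩
      simp only [Prod.mk.injEq] at h3
      refine ⟨a + r * b, c + r * d, ⟨⟨a, b, h1, rfl⟩, ⟨c, d, h2, rfl⟩⟩, ?_⟩
      rw [← h4, ← h3.1, ← h3.2]
      ring
    · rintro ⟨u, v, ⟨⟨a, b, h1, h2⟩, ⟨c, d, h3, h4⟩⟩, h5⟩
      refine ⟨a + M * c, b + M * d, ⟨a, b, c, d, ⟨h1, h3⟩, rfl⟩, ?_⟩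
      rw [← h5, ← h2, ← h4]
      ring
  have hprojInf : prInf ((A ×ˢ B).image f) =
      (prInf A ×ˢ prInf B).image fun z => z.1 + M * z.2 := by
    ext z
    simp only [prInf, mem_image, mem_product, hf, Prod.exists]
    constructor
    · rintro ⟨x, y, ⟨a, b, c, d, ⟨h1, h2⟩, h3⟩, h4⟩
      simp only [Prod.mk.injEq] at h3
      refine ⟨b, d, ⟨⟨a, b, h1, rfl⟩, ⟨c, d, h2, rfl⟩⟩, ?_⟩
      rw [← h4, ← h3.2]
    · rintro ⟨u, v, ⟨⟨a, b, h1, h2⟩, ⟨c, d, h3, h4⟩⟩, h5⟩
      refine ⟨a + M * c, b + M * d, ⟨a, b, c, d, ⟨h1, h3⟩, rfl⟩, ?_⟩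
      rw [← h5, ← h2, ← h4]
  refine ⟨(A ×ˢ B).image f, ?_, ?_, ?_, ?_⟩
  · rw [hproj, card_image_of_injOn, card_product]
    rintro ⟨u, v⟩ h ⟨u', v'⟩ h' he
    rw [mem_coe, mem_product] at h h'
    simp only at he h h'
    by_cases hv : v = v'
    · subst hv
      rw [add_right_cancel he]
    · exfalso
      apply hM
      rw [hbad, mem_union]
      left
      rw [mem_image]
      refine ⟨((u, u'), (v', v)), ?_, ?_⟩
      · rw [mem_product, mem_product, mem_product]
        exact ⟨⟨h.1, h'.1⟩, ⟨h'.2, h.2⟩⟩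
      · simp only
        rw [div_eq_iff (sub_ne_zero.2 (Ne.symm hv))]
        linear_combination he
  · intro r
    rw [hproj]
    exact card_image_le.trans (le_of_eq (card_product _ _))
  · rw [hprojInf]
    exact card_image_le.trans (le_of_eq (card_product _ _))
  · intro hA hB
    exact (hA.product hB).image _

/-- powers of a set of points -/
lemma pow_sets [Infinite F] (S : Finset F) (A : Finset (F × F)) (hA : A.Nonempty) (k : ℕ) :
    ∃ C : Finset (F × F), C.Nonempty ∧ (pr (-1) C).card = (pr (-1) A).card ^ k ∧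
      bg S C ≤ bg S A ^ k ∧ 1 ≤ bg S C := by
  classical
  induction k with
  | zero =>
    refine ⟨{(0, 0)}, singleton_nonempty _, ?_, ?_, ?_⟩
    · simp [pr]
    · simp only [pow_zero]
      unfold bg
      apply max_le
      · simp [prInf]
      · apply Finset.sup_le
        intro r _
        simp [pr]
    · exact bg_pos (singleton_nonempty _)
  | succ k ih =>
    obtain ⟨C, hC0, hC1, hC2, -⟩ := ih
    obtain ⟨D, h1, h2, h3, h4⟩ := prod_sets C A
    have hD := h4 hC0 hA
    refine ⟨D, hD, ?_, ?_, bg_pos hD⟩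
    · rw [h1, hC1, pow_succ]
    · have hmul : bg S C * bg S A ≤ bg S A ^ (k + 1) := by
        rw [pow_succ]
        exact Nat.mul_le_mul_right _ hC2
      refine le_trans ?_ hmul
      apply max_le
      · exact h3.trans (Nat.mul_le_mul (prInf_le_bg S C) (prInf_le_bg S A))
      · apply Finset.sup_le
        intro r hr
        exact (h2 r).trans (Nat.mul_le_mul (pr_le_bg hr C) (pr_le_bg hr A))

/-- removing the constant -/
theorem positive' [Infinite F] (J : ℕ) : ∃ g : ℕ, 1 ≤ g ∧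
    ∀ (S : Finset F) (a b : F), a ∈ S → b ∈ S → a ≠ b →
      (1 + a) / (b - a) ∈ Gen (crs S a b) J →
      ∀ A : Finset (F × F), (pr (-1) A).card ^ g ≤ (bg S A) ^ (2 * g - 1) := by
  obtain ⟨C, g, hC, hg, h⟩ := positive (F := F) J
  refine ⟨g, hg, fun S a b ha hb hab hl A => ?_⟩
  rcases A.eq_empty_or_nonempty with hA | hA
  · subst hA
    simp only [pr, image_empty, card_empty]
    rw [zero_pow (by omega)]
    exact Nat.zero_le _
  by_contra hcon
  push Not at hcon
  have hN : 0 < bg S A := bg_pos hA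
  have h1 : (1 : ℝ) < ((pr (-1) A).card : ℝ) ^ g / (bg S A : ℝ) ^ (2 * g - 1) := by
    rw [one_lt_div (by positivity)]
    exact_mod_cast hcon
  obtain ⟨k, hk⟩ := pow_unbounded_of_one_lt C h1
  obtain ⟨D, hD0, hD1, hD2, hD3⟩ := pow_sets S A hA k
  have h2 := h S a b ha hb hab hl D
  have h3 : ((pr (-1) A).card : ℝ) ^ (k * g) ≤ C * ((bg S A : ℝ) ^ k) ^ (2 * g - 1) := by
    calc ((pr (-1) A).card : ℝ) ^ (k * g) = ((pr (-1) D).card : ℝ) ^ g := by
          rw [hD1, pow_mul]; push_cast; ring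
      _ ≤ C * (bg S D : ℝ) ^ (2 * g - 1) := h2
      _ ≤ C * ((bg S A : ℝ) ^ k) ^ (2 * g - 1) := by
          apply mul_le_mul_of_nonneg_left _ (by linarith)
          apply pow_le_pow_left₀ (by positivity)
          exact_mod_cast hD2
  have h4 : (((pr (-1) A).card : ℝ) ^ g / (bg S A : ℝ) ^ (2 * g - 1)) ^ k ≤ C := by
    rw [div_pow, div_le_iff₀ (by positivity)]
    calc (((pr (-1) A).card : ℝ) ^ g) ^ k = ((pr (-1) A).card : ℝ) ^ (k * g) := by
          rw [← pow_mul, mul_comm]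
      _ ≤ C * ((bg S A : ℝ) ^ k) ^ (2 * g - 1) := h3
      _ = _ := by rw [← pow_mul, ← pow_mul, mul_comm k]
  linarith

end Pool.Agent.Run7.h84.US
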