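import Mathlib
import Pool.Agent.Run7.h84.US.Tensor

/-! # Sets of slopes for which the target is not computable from the slopes -/

set_option autoImplicit false

namespace Pool.Agent.Run7.h84.US

open Finset

/-- polynomials with exponents at most `j` and coefficients less than `2 ^ j` -/
def Pol (k j : ℕ) : Set (MvPolynomial (Fin k) ℕ) :=
  {p | ∀ m, p.coeff m < 2 ^ j ∧ (p.coeff m ≠ 0 → ∀ i, m i ≤ j)}

lemma pol_mono {k j j' : ℕ} (h : j ≤ j') : Pol k j ⊆ Pol k j' := by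
  intro p hp m
  refine ⟨(hp m).1.trans_le (Nat.pow_le_pow_right (by norm_num) h), fun h0 i => ?_⟩
  exact ((hp m).2 h0 i).trans h

/-- the coefficients -/
noncomputable def code (k j : ℕ) (p : Pol k j) : (Fin k → Fin (j + 1)) → Fin (2 ^ j) := fun v =>
  ⟨p.1.coeff (Finsupp.equivFunOnFinite.symm fun i => (v i : ℕ)), (p.2 _).1⟩

lemma code_injective (k j : ℕ) : Function.Injective (code k j) := by
  rintro ⟨p, hp⟩ ⟨q, hq⟩ h
  apply Subtype.ext
  simp only
  ext m
  by_cases hm : ∀ i, m i ≤ j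
  · have h1 := congrFun h fun i => ⟨m i, Nat.lt_succ_of_le (hm i)⟩
    have h2 := congrArg Fin.val h1
    simp only [code] at h2
    have e : (Finsupp.equivFunOnFinite.symm fun i => m i) = m := by
      ext i
      simp
    rw [e] at h2
    exact h2
  · have h1 : p.coeff m = 0 := by
      by_contra h0
      exact hm ((hp m).2 h0)
    have h2 : q.coeff m = 0 := by
      by_contra h0
      exact hm ((hq m).2 h0)
    rw [h1, h2]

instance (k j : ℕ) : Finite (Pol k j) := Finite.of_injective _ (code_injective k j)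

lemma card_pol_le (k j : ℕ) : Nat.card (Pol k j) ≤ (2 ^ j) ^ ((j + 1) ^ k) := by
  have h := Nat.card_le_card_of_injective _ (code_injective k j)
  simpa using h

variable {F : Type*} [Field F]

/-- the values of these polynomials -/
def PV {k : ℕ} (μ : Fin k → F) (j : ℕ) : Set F := (fun p => MvPolynomial.aeval μ p) '' Pol k j

lemma pv_finite {k : ℕ} (μ : Fin k → F) (j : ℕ) : (PV μ j).Finite :=
  (Set.toFinite (Pol k j)).image _

lemma card_pv_le {k : ℕ} (μ : Fin k → F) (j : ℕ) : (PV μ j).ncard ≤ (2 ^ j) ^ ((j + 1) ^ k) :=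
  (Set.ncard_image_le (Set.toFinite _)).trans (card_pol_le k j)

lemma pv_step {k : ℕ} (μ : Fin k → F) (j : ℕ) (i : Fin k) {x y : F} (hx : x ∈ PV μ j)
    (hy : y ∈ PV μ j) : x + μ i * y ∈ PV μ (j + 1) := by
  classical
  obtain ⟨p, hp, rfl⟩ := hx
  obtain ⟨q, hq, rfl⟩ := hy
  refine ⟨p + MvPolynomial.X i * q, ?_, ?_⟩
  · intro m
    rw [MvPolynomial.coeff_add, MvPolynomial.coeff_X_mul']
    have h1 := (hp m)
    by_cases hi : i ∈ m.support
    · rw [if_pos hi]
      have h2 := hq (m - Finsupp.single i 1)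
      refine ⟨by rw [pow_succ]; omega, fun h0 i' => ?_⟩
      rcases Nat.eq_zero_or_pos (p.coeff m) with h3 | h3
      · have h4 : q.coeff (m - Finsupp.single i 1) ≠ 0 := by omega
        have h5 := h2.2 h4 i'
        rw [Finsupp.tsub_apply] at h5
        have h6 : (Finsupp.single i 1 : Fin k →₀ ℕ) i' ≤ 1 := by
          rw [Finsupp.single_apply]
          split_ifs <;> omega
        omega
      · exact (h1.2 h3.ne' i').trans (Nat.le_succ j)
    · rw [if_neg hi, add_zero]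
      refine ⟨h1.1.trans_le (Nat.pow_le_pow_right (by norm_num) (Nat.le_succ j)), fun h0 i' => ?_⟩
      exact (h1.2 h0 i').trans (Nat.le_succ j)
  · simp

lemma pv_mono {k : ℕ} (μ : Fin k → F) {j j' : ℕ} (h : j ≤ j') : PV μ j ⊆ PV μ j' :=
  Set.image_mono (pol_mono h)

lemma two_le_pv {k : ℕ} (μ : Fin k → F) : 2 ≤ (PV μ 1).ncard := by
  classical
  have h0 : (0 : F) ∈ PV μ 1 := ⟨0, fun m => by simp, by simp⟩
  have h1 : (1 : F) ∈ PV μ 1 := by
    refine ⟨1, fun m => ?_, by simp⟩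
    rw [MvPolynomial.coeff_one]
    split_ifs with h
    · refine ⟨by norm_num, fun _ i => ?_⟩
      rw [← h]
      simp
    · exact ⟨by norm_num, fun h0 => absurd rfl h0⟩
  have h2 : ({0, 1} : Set F) ⊆ PV μ 1 := by
    intro x hx
    rcases hx with hx | hx
    · rw [hx]; exact h0
    · rw [Set.mem_singleton_iff] at hx
      rw [hx]; exact h1
  have h3 : ({0, 1} : Set F).ncard = 2 := Set.ncard_pair zero_ne_one
  rw [← h3]
  exact Set.ncard_le_ncard h2 (pv_finite μ 1)

/-- sequences of polynomial logarithm have small steps -/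
lemma growth (k : ℕ) (η : ℝ) (hη : 0 < η) : ∃ J : ℕ, ∀ N : ℕ → ℕ, 2 ≤ N 1 →
    (∀ j, N j ≤ (2 ^ j) ^ ((j + 1) ^ k)) →
    ∃ j : ℕ, 1 ≤ j ∧ j ≤ J ∧ 2 ≤ N j ∧ (N (j + 1) : ℝ) ≤ (N j : ℝ) ^ (1 + η) := by
  have hr : 1 < 1 + η := by linarith
  have h1 := tendsto_pow_const_div_const_pow_of_one_lt (k + 1) hr
  have h2 : (0 : ℝ) < ((1 + η) ^ 2)⁻¹ := by positivity
  have h3 := (h1.comp (Filter.tendsto_add_atTop_nat 1)).eventually (gt_mem_nhds h2)
  obtain ⟨J, hJ⟩ := (h3.and (Filter.eventually_ge_atTop 1)).exists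
  obtain ⟨hJ1, hJ0⟩ := hJ
  refine ⟨J, fun N hN1 hN => ?_⟩
  by_contra hcon
  push Not at hcon
  have h4 : ∀ j : ℕ, 1 ≤ j → j ≤ J → 2 ≤ N j ∧
      (1 + η) ^ (j - 1) * Real.log 2 ≤ Real.log (N j) := by
    intro j hj
    induction j, hj using Nat.le_induction with
    | base =>
      intro _
      refine ⟨hN1, ?_⟩
      rw [Nat.sub_self, pow_zero, one_mul]
      apply Real.log_le_log (by norm_num)
      exact_mod_cast hN1
    | succ j hj ih =>
      intro hj'
      obtain ⟨h5, h6⟩ := ih (by omega)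
      have h7 := hcon j hj (by omega) h5
      have hNj : (1 : ℝ) ≤ (N j : ℝ) := by exact_mod_cast (by omega : 1 ≤ N j)
      have hNj2 : (2 : ℝ) ≤ (N j : ℝ) := by exact_mod_cast h5
      have h8 : (N j : ℝ) ≤ (N j : ℝ) ^ (1 + η) := by
        calc (N j : ℝ) = (N j : ℝ) ^ (1 : ℝ) := (Real.rpow_one _).symm
          _ ≤ _ := Real.rpow_le_rpow_of_exponent_le hNj (by linarith)
      refine ⟨?_, ?_⟩
      · have : (2 : ℝ) ≤ (N (j + 1) : ℝ) := by linarith
        exact_mod_cast this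
      · have h9 : Real.log ((N j : ℝ) ^ (1 + η)) ≤ Real.log (N (j + 1)) :=
          Real.log_le_log (by positivity) h7.le
        rw [Real.log_rpow (by linarith)] at h9
        have e : (1 + η) ^ (j + 1 - 1) * Real.log 2 = (1 + η) * ((1 + η) ^ (j - 1) * Real.log 2) := by
          rw [← mul_assoc, ← pow_succ']
          congr 2
          omega
        rw [e]
        exact (mul_le_mul_of_nonneg_left h6 (by linarith)).trans h9
  obtain ⟨-, h5⟩ := h4 J hJ0 le_rfl
  have hlog2 : 0 < Real.log 2 := Real.log_pos (by norm_num)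
  have h6 : Real.log (N J) ≤ ((J : ℝ) + 1) ^ (k + 1) * Real.log 2 := by
    have h7 : (N J : ℝ) ≤ (2 : ℝ) ^ (J * (J + 1) ^ k) := by
      have := hN J
      rw [← pow_mul] at this
      exact_mod_cast this
    have hpos : (0 : ℝ) < (N J : ℝ) := by
      have := (h4 J hJ0 le_rfl).1
      exact_mod_cast (by omega : 0 < N J)
    have h8 := Real.log_le_log hpos h7
    rw [Real.log_pow] at h8
    refine h8.trans ?_
    apply mul_le_mul_of_nonneg_right _ hlog2.le
    push_cast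
    rw [pow_succ, mul_comm]
    apply mul_le_mul_of_nonneg_left _ (by positivity)
    linarith
  have h7 : (1 + η) ^ (J - 1) ≤ ((J : ℝ) + 1) ^ (k + 1) := by
    exact le_of_mul_le_mul_right (h5.trans h6) hlog2
  simp only [Function.comp] at hJ1
  rw [div_lt_iff₀ (by positivity)] at hJ1
  push_cast at hJ1
  have e : ((1 + η) ^ 2)⁻¹ * (1 + η) ^ (J + 1) = (1 + η) ^ (J - 1) := by
    have : (1 + η) ^ (J + 1) = (1 + η) ^ 2 * (1 + η) ^ (J - 1) := by
      rw [← pow_add]
      congr 1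
      omega
    rw [this, ← mul_assoc, inv_mul_cancel₀ (by positivity), one_mul]
  rw [e] at hJ1
  linarith

/-- the values of a polynomial are computable -/
lemma level {k : ℕ} (p : MvPolynomial (Fin k) ℕ) : ∃ l : ℕ, ∀ (μ : Fin k → F) (T : Set F),
    (∀ i, μ i ∈ T) → MvPolynomial.aeval μ p ∈ Gen T l := by
  induction p using MvPolynomial.induction_on with
  | C a =>
    induction a with
    | zero =>
      refine ⟨0, fun μ T _ => ?_⟩
      simp only [map_zero]
      exact Or.inl (Or.inl rfl)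
    | succ a ih =>
      obtain ⟨l, hl⟩ := ih
      refine ⟨l + 1, fun μ T h => ?_⟩
      refine ⟨_, hl μ T h, 1, gen_mono (Nat.zero_le l) (Or.inl (Or.inr rfl)), Or.inr (Or.inl ?_)⟩
      simp [MvPolynomial.aeval_def]
  | add p q hp hq =>
    obtain ⟨l, hl⟩ := hp
    obtain ⟨l', hl'⟩ := hq
    refine ⟨max l l' + 1, fun μ T h => ?_⟩
    refine ⟨_, gen_mono (le_max_left l l') (hl μ T h), _, gen_mono (le_max_right l l') (hl' μ T h),
      Or.inr (Or.inl ?_)⟩
    rw [map_add]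
  | mul_X p i hp =>
    obtain ⟨l, hl⟩ := hp
    refine ⟨l + 1, fun μ T h => ?_⟩
    refine ⟨_, hl μ T h, μ i, gen_mono (Nat.zero_le l) (Or.inr (h i)),
      Or.inr (Or.inr (Or.inr (Or.inl ?_)))⟩
    rw [map_mul, MvPolynomial.aeval_X]

lemma level_all (k J : ℕ) : ∃ l : ℕ, ∀ (μ : Fin k → F) (T : Set F), (∀ i, μ i ∈ T) →
    ∀ x ∈ PV μ J, x ∈ Gen T l := by
  classical
  choose f hf using fun p : MvPolynomial (Fin k) ℕ => level (F := F) p
  obtain ⟨l, hl⟩ : ∃ l : ℕ, ∀ p ∈ Pol k J, f p ≤ l := by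
    have hfin : (f '' Pol k J).Finite := (Set.toFinite (Pol k J)).image _
    obtain ⟨l, hl⟩ := hfin.bddAbove
    exact ⟨l, fun p hp => hl ⟨p, hp, rfl⟩⟩
  refine ⟨l, fun μ T h x hx => ?_⟩
  obtain ⟨p, hp, rfl⟩ := hx
  exact gen_mono (hl p hp) (hf p μ T h)

variable [DecidableEq F]

/-- **The negative theorem.** If the cross ratio of the slope `-1` is not computable from the cross
ratios of at most `k` slopes in few steps, then there is no inequality with the exponent `κ`. -/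
theorem negative [Infinite F] (k : ℕ) (κ : ℝ) (hκ : κ < 2) : ∃ J : ℕ,
    ∀ (S : Finset F) (a b : F), S.card ≤ k → a ∈ S → b ∈ S → a ≠ b →
      (1 + a) / (b - a) ∉ Gen (crs S a b) J →
      ∀ C : ℝ, ∃ A : Finset (F × F), A.Nonempty ∧ C * (bg S A : ℝ) ^ κ < (pr (-1) A).card := by
  classical
  obtain ⟨κ', hκ'⟩ : ∃ κ' : ℝ, κ' = max κ 0 := ⟨_, rfl⟩
  have hκ0 : 0 ≤ κ' := by rw [hκ']; exact le_max_right _ _
  have hκ1 : κ ≤ κ' := by rw [hκ']; exact le_max_left _ _
  have hκ2 : κ' < 2 := by rw [hκ']; exact max_lt hκ (by norm_num)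
  obtain ⟨η, hη⟩ : ∃ η : ℝ, η = (2 - κ') / 4 := ⟨_, rfl⟩
  have hη0 : 0 < η := by rw [hη]; linarith
  have hη1 : (1 + η) * κ' < 2 := by
    rw [hη]
    nlinarith
  obtain ⟨J, hJ⟩ := growth k η hη0
  obtain ⟨l, hl⟩ := level_all (F := F) k J
  refine ⟨l + 2, fun S a b hS ha hb hab hlam C => ?_⟩
  have hba : b - a ≠ 0 := sub_ne_zero.2 (Ne.symm hab)
  -- the enumeration of the cross ratios
  obtain ⟨μ, hμ1, hμ2⟩ : ∃ μ : Fin k → F, (∀ i, μ i ∈ crs S a b) ∧
      ∀ r ∈ S, ∃ i, μ i = (r - a) / (b - a) := by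
    refine ⟨fun i => if h : (i : ℕ) < S.card then ((S.equivFin.symm ⟨i, h⟩ : F) - a) / (b - a)
      else (a - a) / (b - a), fun i => ?_, fun r hr => ?_⟩
    · by_cases h : (i : ℕ) < S.card
      · simp only [h, dif_pos]
        exact ⟨_, (S.equivFin.symm ⟨i, h⟩).2, rfl⟩
      · simp only [h, dif_neg, not_false_iff]
        exact ⟨a, ha, rfl⟩
    · have h1 := (S.equivFin ⟨r, hr⟩).2
      refine ⟨⟨S.equivFin ⟨r, hr⟩, h1.trans_le hS⟩, ?_⟩
      simp [h1]
  obtain ⟨N, hN⟩ : ∃ N : ℕ → ℕ, N = fun j => (PV μ j).ncard := ⟨_, rfl⟩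
  obtain ⟨j, hj1, hjJ, hNj, hNj1⟩ := hJ N (by rw [hN]; exact two_le_pv μ)
    (fun j => by rw [hN]; exact card_pv_le μ j)
  obtain ⟨P, hP⟩ : ∃ P : Finset F, (P : Set F) = PV μ j :=
    ⟨(pv_finite μ j).toFinset, Set.Finite.coe_toFinset _⟩
  obtain ⟨P', hP'⟩ : ∃ P' : Finset F, (P' : Set F) = PV μ (j + 1) :=
    ⟨(pv_finite μ (j + 1)).toFinset, Set.Finite.coe_toFinset _⟩
  have hPc : P.card = N j := by rw [hN, ← Set.ncard_coe_finset, hP]
  have hPc' : P'.card = N (j + 1) := by rw [hN, ← Set.ncard_coe_finset, hP']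
  have hmem : ∀ x, x ∈ P ↔ x ∈ PV μ j := fun x => by rw [← hP, mem_coe]
  have hmem' : ∀ x, x ∈ P' ↔ x ∈ PV μ (j + 1) := fun x => by rw [← hP', mem_coe]
  have hPP' : P ⊆ P' := fun x hx => (hmem' x).2 (pv_mono μ (Nat.le_succ j) ((hmem x).1 hx))
  have hgen : ∀ x ∈ P, x ∈ Gen (crs S a b) l := fun x hx =>
    hl μ _ hμ1 x (pv_mono μ hjJ ((hmem x).1 hx))
  -- the points
  obtain ⟨f, hf⟩ : ∃ f : F × F → F × F, f = fun q => (q.2 - a * (q.1 / (b - a)), q.1 / (b - a)) :=
    ⟨_, rfl⟩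
  obtain ⟨A, hA⟩ : ∃ A : Finset (F × F), A = (P ×ˢ P).image f := ⟨_, rfl⟩
  have hP0 : P.Nonempty := by rw [← card_pos, hPc]; omega
  have hA0 : A.Nonempty := by rw [hA]; exact (hP0.product hP0).image _
  have hm : (pr (-1) A).card = N j * N j := by
    have e : pr (-1) A = (P ×ˢ P).image fun q => q.2 - (1 + a) / (b - a) * q.1 := by
      rw [hA, pr, image_image]
      refine image_congr fun q _ => ?_
      simp only [Function.comp, hf]
      field_simp
      ring
    rw [e, card_image_of_injOn, card_product, hPc]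
    rintro ⟨x, w⟩ h ⟨x', w'⟩ h' he
    rw [mem_coe, mem_product] at h h'
    simp only at he h h'
    by_cases hx : x = x'
    · subst hx
      rw [sub_left_injective he]
    · exfalso
      apply hlam
      refine ⟨w - w', ?_, x - x', ?_, Or.inr (Or.inr (Or.inr (Or.inr ?_)))⟩
      · exact ⟨w, hgen w h.2, w', hgen w' h'.2, Or.inr (Or.inr (Or.inl rfl))⟩
      · exact ⟨x, hgen x h.1, x', hgen x' h'.1, Or.inr (Or.inr (Or.inl rfl))⟩
      · rw [eq_div_iff (sub_ne_zero.2 hx)]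
        linear_combination (-1) * he
  have hbg : bg S A ≤ N (j + 1) := by
    apply max_le
    · have e : prInf A ⊆ P.image fun x => x / (b - a) := by
        intro z hz
        obtain ⟨p, hp, rfl⟩ := mem_image.1 hz
        rw [hA] at hp
        obtain ⟨q, hq, rfl⟩ := mem_image.1 hp
        rw [hf]
        exact mem_image.2 ⟨q.1, (mem_product.1 hq).1, rfl⟩
      rw [← hPc']
      exact (card_le_card e).trans (card_image_le.trans (card_le_card hPP'))
    · apply Finset.sup_le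
      intro r hr
      obtain ⟨i, hi⟩ := hμ2 r hr
      rw [← hPc']
      apply card_le_card
      intro z hz
      obtain ⟨p, hp, rfl⟩ := mem_image.1 hz
      rw [hA] at hp
      obtain ⟨q, hq, rfl⟩ := mem_image.1 hp
      rw [hmem']
      rw [mem_product] at hq
      have := pv_step μ j i ((hmem _).1 hq.2) ((hmem _).1 hq.1)
      rw [hi] at this
      have e : (f q).1 + r * (f q).2 = q.2 + (r - a) / (b - a) * q.1 := by
        rw [hf]
        field_simp
        ring
      rw [e]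
      exact this
  have hNpos : (0 : ℝ) < (N j : ℝ) := by exact_mod_cast (by omega : 0 < N j)
  have hN1 : (1 : ℝ) < (N j : ℝ) := by exact_mod_cast (by omega : 1 < N j)
  have hbgpos : (0 : ℝ) < (bg S A : ℝ) := by exact_mod_cast bg_pos hA0
  have hq : (1 : ℝ) < ((pr (-1) A).card : ℝ) / (bg S A : ℝ) ^ κ' := by
    rw [one_lt_div (by positivity), hm]
    calc (bg S A : ℝ) ^ κ' ≤ ((N j : ℝ) ^ (1 + η)) ^ κ' := by
          apply Real.rpow_le_rpow hbgpos.le _ hκ0
          exact le_trans (by exact_mod_cast hbg) hNj1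
      _ = (N j : ℝ) ^ ((1 + η) * κ') := by rw [← Real.rpow_mul hNpos.le]
      _ < (N j : ℝ) ^ (2 : ℝ) := Real.rpow_lt_rpow_of_exponent_lt hN1 hη1
      _ = ((N j * N j : ℕ) : ℝ) := by
          rw [show (2 : ℝ) = ((2 : ℕ) : ℝ) by norm_num, Real.rpow_natCast]
          push_cast
          ring
  obtain ⟨t, ht⟩ := pow_unbounded_of_one_lt (max C 0) hq
  obtain ⟨D, hD0, hD1, hD2, hD3⟩ := pow_sets S A hA0 t
  refine ⟨D, hD0, ?_⟩
  have hD3' : (1 : ℝ) ≤ (bg S D : ℝ) := by exact_mod_cast hD3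
  have h1 : (bg S D : ℝ) ^ κ ≤ ((bg S A : ℝ) ^ κ') ^ t := by
    calc (bg S D : ℝ) ^ κ ≤ (bg S D : ℝ) ^ κ' := Real.rpow_le_rpow_of_exponent_le hD3' hκ1
      _ ≤ ((bg S A : ℝ) ^ t) ^ κ' := by
          apply Real.rpow_le_rpow (by linarith) _ hκ0
          exact_mod_cast hD2
      _ = _ := by
          rw [← Real.rpow_natCast, ← Real.rpow_natCast, ← Real.rpow_mul hbgpos.le,
            ← Real.rpow_mul hbgpos.le, mul_comm]
  calc C * (bg S D : ℝ) ^ κ ≤ max C 0 * (bg S D : ℝ) ^ κ :=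
        mul_le_mul_of_nonneg_right (le_max_left _ _) (by positivity)
    _ ≤ max C 0 * ((bg S A : ℝ) ^ κ') ^ t :=
        mul_le_mul_of_nonneg_left h1 (le_max_right _ _)
    _ < (((pr (-1) A).card : ℝ) / (bg S A : ℝ) ^ κ') ^ t * ((bg S A : ℝ) ^ κ') ^ t :=
        mul_lt_mul_of_pos_right ht (by positivity)
    _ = ((pr (-1) A).card : ℝ) ^ t := by
        rw [← mul_pow, div_mul_cancel₀ _ (by positivity)]
    _ = ((pr (-1) D).card : ℝ) := by rw [hD1]; push_cast; rfl

end Pool.Agent.Run7.h84.US
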