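import Mathlib
import Pool.Agent.Run7.h84.US.Neg
import Pool.Agent.R470.AK.Lac2

/-! # Consequences: integer points, typical slopes, clusters of slopes, arbitrary fields -/

set_option autoImplicit false

namespace Pool.Agent.Run7.h84.US

open Finset

section gen
variable {F : Type*} [Field F]

lemma gen_subset {T T' : Set F} (h : T ⊆ T') (J : ℕ) : Gen T J ⊆ Gen T' J := by
  induction J with
  | zero => exact Set.union_subset_union_right _ h
  | succ J ih =>
    rintro z ⟨x, hx, y, hy, h⟩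
    exact ⟨x, ih hx, y, ih hy, h⟩

lemma gen_card (J k : ℕ) : ∃ c : ℕ, ∀ T : Set F, T.Finite → T.ncard ≤ k →
    (Gen T J).Finite ∧ (Gen T J).ncard ≤ c := by
  induction J with
  | zero =>
    refine ⟨k + 2, fun T hT hk => ?_⟩
    have h2 : ({0, 1} : Set F).Finite := Set.toFinite _
    refine ⟨h2.union hT, ?_⟩
    have h3 : ({0, 1} : Set F).ncard ≤ 2 := by
      have := Set.ncard_insert_le (0 : F) {1}
      rw [Set.ncard_singleton] at this
      exact this
    have h4 := Set.ncard_union_le ({0, 1} : Set F) T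
    show ({0, 1} ∪ T : Set F).ncard ≤ k + 2
    omega
  | succ J ih =>
    obtain ⟨c, hc⟩ := ih
    refine ⟨5 * (c * c), fun T hT hk => ?_⟩
    obtain ⟨h1, h2⟩ := hc T hT hk
    set op : Fin 5 × (F × F) → F := fun q =>
      if q.1 = 0 then q.2.1 else if q.1 = 1 then q.2.1 + q.2.2 else if q.1 = 2 then
        q.2.1 - q.2.2 else if q.1 = 3 then q.2.1 * q.2.2 else q.2.1 / q.2.2 with hop
    have hsub : Gen T (J + 1) ⊆ op '' (Set.univ ×ˢ (Gen T J ×ˢ Gen T J)) := by
      rintro z ⟨x, hx, y, hy, h | h | h | h | h⟩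
      · exact ⟨(0, (x, y)), ⟨Set.mem_univ _, hx, hy⟩, by rw [h, hop]; simp⟩
      · exact ⟨(1, (x, y)), ⟨Set.mem_univ _, hx, hy⟩, by rw [h, hop]; simp⟩
      · exact ⟨(2, (x, y)), ⟨Set.mem_univ _, hx, hy⟩, by rw [h, hop]; simp⟩
      · exact ⟨(3, (x, y)), ⟨Set.mem_univ _, hx, hy⟩, by rw [h, hop]; simp⟩
      · exact ⟨(4, (x, y)), ⟨Set.mem_univ _, hx, hy⟩, by rw [h, hop]; simp⟩
    have hfin : (Set.univ ×ˢ (Gen T J ×ˢ Gen T J) : Set (Fin 5 × (F × F))).Finite :=
      Set.finite_univ.prod (h1.prod h1)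
    refine ⟨(hfin.image op).subset hsub, ?_⟩
    have h3 := Set.ncard_le_ncard hsub (hfin.image op)
    have h4 := Set.ncard_image_le hfin (f := op)
    rw [Set.ncard_prod, Set.ncard_prod, Set.ncard_univ, Nat.card_fin] at h4
    have h5 : (Gen T J).ncard * (Gen T J).ncard ≤ c * c := Nat.mul_le_mul h2 h2
    omega

lemma gen_closure (T : Set F) (J : ℕ) : ∀ x ∈ Gen T J, x ∈ Subfield.closure T := by
  induction J with
  | zero =>
    rintro x (hx | hx)
    · rcases hx with hx | hx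
      · rw [hx]; exact zero_mem _
      · rw [Set.mem_singleton_iff] at hx
        rw [hx]; exact one_mem _
    · exact Subfield.subset_closure hx
  | succ J ih =>
    rintro z ⟨x, hx, y, hy, h | h | h | h | h⟩
    · rw [h]; exact ih x hx
    · rw [h]; exact add_mem (ih x hx) (ih y hy)
    · rw [h]; exact sub_mem (ih x hx) (ih y hy)
    · rw [h]; exact mul_mem (ih x hx) (ih y hy)
    · rw [h]; exact div_mem (ih x hx) (ih y hy)

lemma closure_gen (T : Set F) {x : F} (hx : x ∈ Subfield.closure T) : ∃ J, x ∈ Gen T J := by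
  induction hx using Subfield.closure_induction with
  | mem x hx => exact ⟨0, Or.inr hx⟩
  | one => exact ⟨0, Or.inl (Or.inr rfl)⟩
  | add x y _ _ ihx ihy =>
    obtain ⟨J, hJ⟩ := ihx
    obtain ⟨J', hJ'⟩ := ihy
    exact ⟨max J J' + 1, x, gen_mono (le_max_left _ _) hJ, y, gen_mono (le_max_right _ _) hJ',
      Or.inr (Or.inl rfl)⟩
  | neg x _ ihx =>
    obtain ⟨J, hJ⟩ := ihx
    exact ⟨J + 1, 0, gen_mono (Nat.zero_le _) (Or.inl (Or.inl rfl)), x, hJ,
      Or.inr (Or.inr (Or.inl (zero_sub x).symm))⟩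
  | inv x _ ihx =>
    obtain ⟨J, hJ⟩ := ihx
    exact ⟨J + 1, 1, gen_mono (Nat.zero_le _) (Or.inl (Or.inr rfl)), x, hJ,
      Or.inr (Or.inr (Or.inr (Or.inr (one_div x).symm)))⟩
  | mul x y _ _ ihx ihy =>
    obtain ⟨J, hJ⟩ := ihx
    obtain ⟨J', hJ'⟩ := ihy
    exact ⟨max J J' + 1, x, gen_mono (le_max_left _ _) hJ, y, gen_mono (le_max_right _ _) hJ',
      Or.inr (Or.inr (Or.inr (Or.inl rfl)))⟩

/-- taking roots -/
lemma root_ineq {m N g : ℕ} (hg : 1 ≤ g) (hN : 0 < N) (h : m ^ g ≤ N ^ (2 * g - 1)) :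
    (m : ℝ) ≤ (N : ℝ) ^ (2 - 1 / (g : ℝ)) := by
  have hg0 : (0 : ℝ) < g := by exact_mod_cast hg
  have hN0 : (0 : ℝ) < N := by exact_mod_cast hN
  have h1 : ((m : ℝ) ^ g) ≤ (N : ℝ) ^ (2 * g - 1) := by exact_mod_cast h
  have h2 : (m : ℝ) = ((m : ℝ) ^ g) ^ (1 / (g : ℝ)) := by
    rw [← Real.rpow_natCast, ← Real.rpow_mul (by positivity), mul_one_div_cancel hg0.ne',
      Real.rpow_one]
  have h3 : (N : ℝ) ^ (2 - 1 / (g : ℝ)) = ((N : ℝ) ^ (2 * g - 1)) ^ (1 / (g : ℝ)) := by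
    rw [← Real.rpow_natCast, ← Real.rpow_mul hN0.le]
    congr 1
    have : ((2 * g - 1 : ℕ) : ℝ) = 2 * g - 1 := by
      rw [Nat.cast_sub (by omega)]
      push_cast
      ring
    rw [this]
    field_simp
  rw [h3]
  calc (m : ℝ) = ((m : ℝ) ^ g) ^ (1 / (g : ℝ)) := h2
    _ ≤ _ := Real.rpow_le_rpow (by positivity) h1 (by positivity)

/-- **The characterisation over a field.** -/
theorem field_iff {F : Type*} [Field F] [DecidableEq F] [Infinite F] (S : Finset F) (a b : F)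
    (ha : a ∈ S) (hb : b ∈ S) (hab : a ≠ b) :
    (∃ κ : ℝ, κ < 2 ∧ ∃ C : ℝ, ∀ A : Finset (F × F),
      ((pr (-1) A).card : ℝ) ≤ C * (bg S A : ℝ) ^ κ) ↔
    (1 + a) / (b - a) ∈ Subfield.closure (crs S a b) := by
  constructor
  · rintro ⟨κ, hκ, C, hC⟩
    obtain ⟨J, hJ⟩ := negative (F := F) S.card κ hκ
    apply gen_closure _ J
    by_contra hcon
    obtain ⟨A, -, hA⟩ := hJ S a b le_rfl ha hb hab hcon C
    exact absurd (hC A) (not_le.2 hA)
  · intro h
    obtain ⟨J, hJ⟩ := closure_gen _ h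
    obtain ⟨g, hg, hpos⟩ := positive' (F := F) J
    refine ⟨2 - 1 / (g : ℝ), ?_, 1, fun A => ?_⟩
    · have : (0 : ℝ) < 1 / (g : ℝ) := by
        have : (0 : ℝ) < g := by exact_mod_cast hg
        positivity
      linarith
    · rw [one_mul]
      rcases A.eq_empty_or_nonempty with hA | hA
      · subst hA
        simp only [pr, image_empty, card_empty, Nat.cast_zero]
        positivity
      · exact root_ineq hg (bg_pos hA) (hpos S a b ha hb hab hJ A)

end gen

section rat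
open Pool.Agent.R470.AK (proj projInf big int_points)

/-- integer points as rational points -/
def toRat (A : Finset (ℤ × ℤ)) : Finset (ℚ × ℚ) := A.image fun p => ((p.1 : ℚ), (p.2 : ℚ))

lemma pr_toRat (r : ℚ) (A : Finset (ℤ × ℤ)) : pr r (toRat A) = proj r A := by
  unfold pr toRat proj
  rw [image_image]
  rfl

lemma prInf_toRat (A : Finset (ℤ × ℤ)) : prInf (toRat A) = projInf A := by
  unfold prInf toRat projInf
  rw [image_image]
  rfl

lemma bg_toRat (S : Finset ℚ) (A : Finset (ℤ × ℤ)) : bg S (toRat A) = big S A := by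
  unfold bg big
  rw [prInf_toRat]
  simp only [pr_toRat]

lemma bg_int {A : Finset (ℤ × ℤ)} {B : Finset (ℚ × ℚ)}
    (h1 : ∀ r : ℚ, (proj r A).card = (B.image fun p => p.1 + r * p.2).card)
    (h2 : (projInf A).card = (B.image fun p => p.2).card) (S : Finset ℚ) :
    big S A = bg S B := by
  unfold bg big
  rw [h2]
  simp only [h1]
  rfl

theorem int_positive (J : ℕ) : ∃ κ : ℝ, κ < 2 ∧ ∀ (S : Finset ℚ) (a b : ℚ), a ∈ S → b ∈ S →
    a ≠ b → (1 + a) / (b - a) ∈ Gen (crs S a b) J →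
    ∀ A : Finset (ℤ × ℤ), ((proj (-1) A).card : ℝ) ≤ (big S A : ℝ) ^ κ := by
  obtain ⟨g, hg, hpos⟩ := positive' (F := ℚ) J
  refine ⟨2 - 1 / (g : ℝ), ?_, ?_⟩
  · have : (0 : ℝ) < 1 / (g : ℝ) := by
      have : (0 : ℝ) < g := by exact_mod_cast hg
      positivity
    linarith
  · intro S a b ha hb hab hJ A
    rcases A.eq_empty_or_nonempty with hA | hA
    · subst hA
      simp only [proj, image_empty, card_empty, Nat.cast_zero]
      positivity
    · rw [← pr_toRat, ← bg_toRat]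
      exact root_ineq hg (bg_pos (hA.image _)) (hpos S a b ha hb hab hJ (toRat A))

theorem int_negative (k : ℕ) (κ : ℝ) (hκ : κ < 2) : ∃ J : ℕ, ∀ (S : Finset ℚ) (a b : ℚ),
    S.card ≤ k → a ∈ S → b ∈ S → a ≠ b → ∀ C : ℝ,
      (∀ A : Finset (ℤ × ℤ), ((proj (-1) A).card : ℝ) ≤ C * (big S A : ℝ) ^ κ) →
      (1 + a) / (b - a) ∈ Gen (crs S a b) J := by
  obtain ⟨J, hJ⟩ := negative (F := ℚ) k κ hκ
  refine ⟨J, fun S a b hS ha hb hab C h => ?_⟩
  by_contra hcon
  obtain ⟨B, -, hB⟩ := hJ S a b hS ha hb hab hcon C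
  obtain ⟨A, -, h1, h2⟩ := int_points B
  have := h A
  rw [h1, bg_int h1 h2] at this
  exact absurd this (not_le.2 hB)

/-- almost all tuples of slopes are of no use -/
theorem typical (k : ℕ) (κ : ℝ) (hκ : κ < 2) : ∃ c : ℕ, ∀ N : ℕ,
    {r : Fin (k + 2) → ℕ | (∀ i, 1 ≤ r i ∧ r i ≤ N) ∧ r 0 ≠ r 1 ∧
      ∃ C : ℝ, ∀ A : Finset (ℤ × ℤ), ((proj (-1) A).card : ℝ) ≤
        C * (big (univ.image fun i => (r i : ℚ)) A : ℝ) ^ κ}.ncard ≤ c * N ^ (k + 1) := by
  classical
  obtain ⟨J, hJ⟩ := int_negative (k + 2) κ hκ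
  obtain ⟨c, hc⟩ := gen_card (F := ℚ) J (k + 2)
  refine ⟨c * 3 ^ (k + 1), fun N => ?_⟩
  set P : (Fin (k + 2) → ℕ) → Prop := fun r => r 0 ≠ r 1 ∧
      ∃ C : ℝ, ∀ A : Finset (ℤ × ℤ), ((proj (-1) A).card : ℝ) ≤
        C * (big (univ.image fun i => (r i : ℚ)) A : ℝ) ^ κ with hP
  set s : Finset (Fin (k + 2) → ℕ) := (Fintype.piFinset fun _ => Icc 1 N).filter P with hs
  have es : {r : Fin (k + 2) → ℕ | (∀ i, 1 ≤ r i ∧ r i ≤ N) ∧ r 0 ≠ r 1 ∧
      ∃ C : ℝ, ∀ A : Finset (ℤ × ℤ), ((proj (-1) A).card : ℝ) ≤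
        C * (big (univ.image fun i => (r i : ℚ)) A : ℝ) ^ κ} = (s : Set (Fin (k + 2) → ℕ)) := by
    ext r
    simp only [hs, hP, coe_filter, Fintype.mem_piFinset, mem_Icc]
  rw [es, Set.ncard_coe_finset]
  rcases Nat.eq_zero_or_pos N with hN | hN
  · have : s = ∅ := by
      rw [eq_empty_iff_forall_notMem]
      intro r hr
      rw [hs, mem_filter, Fintype.mem_piFinset] at hr
      have := hr.1 0
      rw [mem_Icc] at this
      omega
    rw [this]
    simp
  set f : (Fin (k + 2) → ℕ) → (Fin (k + 2) → ℤ) := fun r i => (r i : ℤ) - r 0 with hf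
  set t : Finset (Fin (k + 2) → ℤ) :=
    Fintype.piFinset fun i => if i = 0 then {0} else Icc (-(N : ℤ)) N with ht
  have htc : t.card ≤ 3 ^ (k + 1) * N ^ (k + 1) := by
    rw [ht, Fintype.card_piFinset, Fin.prod_univ_succ]
    simp only [if_true, card_singleton, one_mul, Fin.succ_ne_zero, if_false, Int.card_Icc,
      prod_const, card_univ, Fintype.card_fin]
    rw [← mul_pow]
    apply Nat.pow_le_pow_left
    omega
  have hmaps : ∀ r ∈ s, f r ∈ t := by
    intro r hr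
    rw [hs, mem_filter, Fintype.mem_piFinset] at hr
    rw [ht, Fintype.mem_piFinset]
    intro i
    have h1 := mem_Icc.1 (hr.1 i)
    have h0 := mem_Icc.1 (hr.1 0)
    by_cases hi : i = 0
    · rw [if_pos hi, hi]
      simp [hf]
    · rw [if_neg hi, mem_Icc]
      simp only [hf]
      omega
  have hfib : ∀ u ∈ t, (s.filter fun r => f r = u).card ≤ c := by
    intro u _
    set T : Set ℚ := Set.range fun i => (u i : ℚ) / u 1 with hT
    have hTfin : T.Finite := Set.finite_range _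
    have hTc : T.ncard ≤ k + 2 := by
      have := Set.ncard_image_le (s := (Set.univ : Set (Fin (k + 2)))) Set.finite_univ
        (f := fun i => (u i : ℚ) / u 1)
      rw [Set.image_univ, Set.ncard_univ, Nat.card_fin] at this
      exact this
    obtain ⟨hG1, hG2⟩ := hc T hTfin hTc
    rw [← Set.ncard_coe_finset]
    refine le_trans ?_ hG2
    apply Set.ncard_le_ncard_of_injOn (fun r => (1 + (r 0 : ℚ)) / u 1) _ _ hG1
    · intro r hr
      rw [mem_coe, mem_filter, hs, mem_filter] at hr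
      obtain ⟨⟨-, h01, C, hC⟩, hu⟩ := hr
      set S : Finset ℚ := univ.image fun i => (r i : ℚ) with hS
      have hScard : S.card ≤ k + 2 := by
        have := card_image_le (s := (univ : Finset (Fin (k + 2)))) (f := fun i => (r i : ℚ))
        rw [card_univ, Fintype.card_fin] at this
        exact this
      have h0S : (r 0 : ℚ) ∈ S := mem_image_of_mem _ (mem_univ _)
      have h1S : (r 1 : ℚ) ∈ S := mem_image_of_mem _ (mem_univ _)
      have hne : (r 0 : ℚ) ≠ r 1 := by exact_mod_cast h01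
      have h2 := hJ S _ _ hScard h0S h1S hne C hC
      have hu' : ∀ i, (u i : ℚ) = r i - r 0 := by
        intro i
        rw [← hu]
        simp only [hf]
        push_cast
        ring
      have e1 : crs S (r 0 : ℚ) (r 1) ⊆ T := by
        rintro z ⟨x, hx, rfl⟩
        obtain ⟨i, -, rfl⟩ := mem_image.1 hx
        exact ⟨i, by simp only [hu']⟩
      have h3 := gen_subset e1 J h2
      simp only [hu' 1]
      exact h3
    · intro r hr r' hr' h
      rw [mem_coe, mem_filter, hs, mem_filter] at hr hr'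
      obtain ⟨⟨-, h01, -⟩, hu⟩ := hr
      obtain ⟨⟨-, h01', -⟩, hu'⟩ := hr'
      have h1 : (u 1 : ℚ) ≠ 0 := by
        rw [← hu]
        simp only [hf]
        have : (r 1 : ℚ) ≠ r 0 := by exact_mod_cast (Ne.symm h01)
        push_cast
        exact sub_ne_zero.2 this
      have h2 : (r 0 : ℚ) = r' 0 := by
        simp only at h
        field_simp at h
        linarith
      have h3 : r 0 = r' 0 := by exact_mod_cast h2
      funext i
      have h4 := congrFun (hu.trans hu'.symm) i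
      simp only [hf] at h4
      omega
  have := card_le_mul_card_image_of_maps_to hmaps c hfib
  calc s.card ≤ c * t.card := this
    _ ≤ c * (3 ^ (k + 1) * N ^ (k + 1)) := Nat.mul_le_mul_left _ htc
    _ = _ := by ring

/-- bounded blocks of slopes far away from `-1` are of no use -/
theorem clusters (H : ℕ) (κ : ℝ) (hκ : κ < 2) : ∃ M₀ : ℕ, ∀ M : ℕ, M₀ ≤ M →
    ∀ S : Finset ℕ, (∀ r ∈ S, M ≤ r ∧ r ≤ M + H) → 2 ≤ S.card → ∀ C : ℝ,
      ∃ A : Finset (ℤ × ℤ), C * (big (S.image fun r : ℕ => (r : ℚ)) A : ℝ) ^ κ <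
        (proj (-1) A).card := by
  classical
  obtain ⟨J, hJ⟩ := int_negative (H + 1) κ hκ
  set T : Set ℚ := (fun q : ℤ × ℤ => (q.1 : ℚ) / q.2) '' (Set.Icc (-(H : ℤ)) H ×ˢ
    Set.Icc (-(H : ℤ)) H) with hT
  have hTfin : T.Finite := ((Set.finite_Icc _ _).prod (Set.finite_Icc _ _)).image _
  obtain ⟨c, hc⟩ := gen_card (F := ℚ) J T.ncard
  obtain ⟨hG1, -⟩ := hc T hTfin le_rfl
  obtain ⟨B, hB⟩ := (hG1.image fun x => |x|).bddAbove
  obtain ⟨M₀, hM₀⟩ := exists_nat_gt (max B 0 * H)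
  refine ⟨M₀, fun M hM S hS hS2 C => ?_⟩
  by_contra hcon
  push Not at hcon
  obtain ⟨a, ha, b, hb, hab⟩ := one_lt_card.1 hS2
  set S' : Finset ℚ := S.image fun r : ℕ => (r : ℚ) with hS'
  have hcard : S'.card ≤ H + 1 := by
    refine card_image_le.trans ?_
    have h1 : S ⊆ Icc M (M + H) := fun r hr => mem_Icc.2 (hS r hr)
    have h2 := card_le_card h1
    rw [Nat.card_Icc] at h2
    omega
  have hab' : (a : ℚ) ≠ b := by exact_mod_cast hab
  have h1 := hJ S' a b hcard (mem_image_of_mem _ ha) (mem_image_of_mem _ hb) hab' C hcon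
  have e1 : crs S' (a : ℚ) b ⊆ T := by
    rintro z ⟨x, hx, rfl⟩
    obtain ⟨r, hr, rfl⟩ := mem_image.1 hx
    refine ⟨((r : ℤ) - a, (b : ℤ) - a), ⟨?_, ?_⟩, ?_⟩
    · have h1 := hS r hr
      have h2 := hS a ha
      simp only [Set.mem_Icc]
      omega
    · have h1 := hS b hb
      have h2 := hS a ha
      simp only [Set.mem_Icc]
      omega
    · simp
  have h2 := gen_subset e1 J h1
  have h3 : |(1 + (a : ℚ)) / (b - a)| ≤ B := hB ⟨_, h2, rfl⟩
  rw [abs_div] at h3
  have h4 : |(b : ℚ) - a| ≤ H := by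
    have h5 := hS b hb
    have h6 := hS a ha
    rw [abs_le]
    have h7 : (b : ℚ) ≤ M + H := by exact_mod_cast h5.2
    have h8 : (M : ℚ) ≤ b := by exact_mod_cast h5.1
    have h9 : (a : ℚ) ≤ M + H := by exact_mod_cast h6.2
    have h10 : (M : ℚ) ≤ a := by exact_mod_cast h6.1
    constructor <;> linarith
  have h5 : (0 : ℚ) < |(b : ℚ) - a| := abs_pos.2 (sub_ne_zero.2 (Ne.symm hab'))
  rw [div_le_iff₀ h5] at h3
  have h6 : |1 + (a : ℚ)| ≤ max B 0 * H := by
    calc |1 + (a : ℚ)| ≤ B * |(b : ℚ) - a| := h3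
      _ ≤ max B 0 * |(b : ℚ) - a| := mul_le_mul_of_nonneg_right (le_max_left _ _) h5.le
      _ ≤ max B 0 * H := mul_le_mul_of_nonneg_left h4 (le_max_right _ _)
  have h7 : (M₀ : ℚ) ≤ |1 + (a : ℚ)| := by
    have h8 : (M : ℚ) ≤ a := by exact_mod_cast (hS a ha).1
    have h9 : (M₀ : ℚ) ≤ M := by exact_mod_cast hM
    have h10 : (0 : ℚ) ≤ a := by positivity
    rw [abs_of_nonneg (by linarith)]
    linarith
  linarith

end rat

end Pool.Agent.Run7.h84.US
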