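import Mathlib
import Pool.Agent.Run7.h84.US.Cor

/-! # Blocks of consecutive slopes -/

set_option autoImplicit false

namespace Pool.Agent.Run7.h84.US

open Finset
open Pool.Agent.R470.AK (proj projInf big int_points)

/-- amplification -/
lemma amplify {S : Finset ℚ} {A : Finset (ℚ × ℚ)} (hA0 : A.Nonempty) {κ κ' : ℝ} (hκ0 : 0 ≤ κ')
    (hκ1 : κ ≤ κ') (h : (bg S A : ℝ) ^ κ' < (pr (-1) A).card) (C : ℝ) :
    ∃ D : Finset (ℤ × ℤ), C * (big S D : ℝ) ^ κ < (proj (-1) D).card := by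
  classical
  have hbgpos : (0 : ℝ) < (bg S A : ℝ) := by exact_mod_cast bg_pos hA0
  have hq : (1 : ℝ) < ((pr (-1) A).card : ℝ) / (bg S A : ℝ) ^ κ' := by
    rw [one_lt_div (by positivity)]
    exact h
  obtain ⟨t, ht⟩ := pow_unbounded_of_one_lt (max C 0) hq
  obtain ⟨D, hD0, hD1, hD2, hD3⟩ := pow_sets S A hA0 t
  obtain ⟨D', -, h1, h2⟩ := int_points D
  refine ⟨D', ?_⟩
  rw [bg_int h1 h2, h1]
  have hD3' : (1 : ℝ) ≤ (bg S D : ℝ) := by exact_mod_cast hD3
  have h1 : (bg S D : ℝ) ^ κ ≤ ((bg S A : ℝ) ^ κ') ^ t := by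
    calc (bg S D : ℝ) ^ κ ≤ (bg S D : ℝ) ^ κ' := Real.rpow_le_rpow_of_exponent_le hD3' hκ1
      _ ≤ ((bg S A : ℝ) ^ t) ^ κ' := by
          apply Real.rpow_le_rpow (by linarith) _ hκ0
          exact_mod_cast hD2
      _ = _ := by
          rw [← Real.rpow_natCast, ← Real.rpow_natCast, ← Real.rpow_mul hbgpos.le,
            ← Real.rpow_mul hbgpos.le, mul_comm]
  calc C * (bg S D : ℝ) ^ κ ≤ max C 0 * (bg S D : ℝ) ^ κ :=
        mul_le_mul_of_nonneg_right (le_max_left _ _) (by positivity)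
    _ ≤ max C 0 * ((bg S A : ℝ) ^ κ') ^ t :=
        mul_le_mul_of_nonneg_left h1 (le_max_right _ _)
    _ < (((pr (-1) A).card : ℝ) / (bg S A : ℝ) ^ κ') ^ t * ((bg S A : ℝ) ^ κ') ^ t :=
        mul_lt_mul_of_pos_right ht (by positivity)
    _ = ((pr (-1) A).card : ℝ) ^ t := by
        rw [← mul_pow, div_mul_cancel₀ _ (by positivity)]
    _ = ((pr (-1) D).card : ℝ) := by rw [hD1]; push_cast; rfl
    _ = _ := rfl

/-- short blocks are of no use -/
theorem blocks_neg (κ : ℝ) (hκ : κ < 2) : ∃ δ : ℝ, 0 < δ ∧ ∃ M₀ : ℕ, ∀ M L : ℕ, M₀ ≤ M →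
    (L : ℝ) ≤ (M : ℝ) ^ δ → ∀ S : Finset ℕ, (∀ r ∈ S, M ≤ r ∧ r ≤ M + L) → ∀ C : ℝ,
      ∃ A : Finset (ℤ × ℤ), C * (big (S.image fun r : ℕ => (r : ℚ)) A : ℝ) ^ κ <
        (proj (-1) A).card := by
  classical
  obtain ⟨κ', hκ'⟩ : ∃ κ' : ℝ, κ' = max κ 0 := ⟨_, rfl⟩
  have hκ0 : 0 ≤ κ' := by rw [hκ']; exact le_max_right _ _
  have hκ1 : κ ≤ κ' := by rw [hκ']; exact le_max_left _ _
  have hκ2 : κ' < 2 := by rw [hκ']; exact max_lt hκ (by norm_num)
  obtain ⟨δ, hδ⟩ : ∃ δ : ℝ, δ = (2 - κ') / 8 := ⟨_, rfl⟩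
  have hδ0 : 0 < δ := by rw [hδ]; linarith
  have hδ1 : (1 + 2 * δ) * κ' < 2 := by
    rw [hδ]
    nlinarith
  -- `2 < Q ^ δ` for large `Q`
  obtain ⟨M₀, hM₀⟩ := exists_nat_gt ((2 : ℝ) ^ (1 / δ))
  refine ⟨δ, hδ0, M₀, fun M L hM hL S hS C => ?_⟩
  obtain ⟨Q, hQ⟩ : ∃ Q : ℕ, Q = M + 1 := ⟨_, rfl⟩
  have hQ1 : 1 ≤ Q := by omega
  have hQ0 : (0 : ℝ) < Q := by exact_mod_cast hQ1
  have h2Q : (2 : ℝ) ≤ (Q : ℝ) ^ δ := by
    have h1 : (2 : ℝ) ^ (1 / δ) ≤ Q := by
      have : (M₀ : ℝ) ≤ Q := by exact_mod_cast (by omega : M₀ ≤ Q)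
      linarith
    calc (2 : ℝ) = ((2 : ℝ) ^ (1 / δ)) ^ δ := by
          rw [← Real.rpow_mul (by norm_num), one_div_mul_cancel hδ0.ne', Real.rpow_one]
      _ ≤ _ := Real.rpow_le_rpow (by positivity) h1 hδ0.le
  have hMQ : (M : ℝ) ^ δ ≤ (Q : ℝ) ^ δ := by
    apply Real.rpow_le_rpow (by positivity) _ hδ0.le
    exact_mod_cast (by omega : M ≤ Q)
  have hL1 : (L : ℝ) + 1 ≤ (Q : ℝ) ^ (2 * δ) := by
    have h1 : (Q : ℝ) ^ (2 * δ) = (Q : ℝ) ^ δ * (Q : ℝ) ^ δ := by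
      rw [← Real.rpow_add hQ0]
      congr 1
      ring
    rw [h1]
    nlinarith
  -- the points
  obtain ⟨A, hA⟩ : ∃ A : Finset (ℚ × ℚ), A = (range Q ×ˢ range Q).image
      fun q => ((q.2 : ℚ) - M * q.1, (q.1 : ℚ)) := ⟨_, rfl⟩
  have hA0 : A.Nonempty := by
    rw [hA]
    have : (range Q).Nonempty := ⟨0, mem_range.2 hQ1⟩
    exact (this.product this).image _
  have hm : (pr (-1) A).card = Q * Q := by
    have e : pr (-1) A = (range Q ×ˢ range Q).image fun q => (q.2 : ℚ) - Q * q.1 := by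
      rw [hA, pr, image_image]
      refine image_congr fun q _ => ?_
      simp only [Function.comp, hQ]
      push_cast
      ring
    rw [e, card_image_of_injOn, card_product, card_range]
    rintro ⟨x, w⟩ h ⟨x', w'⟩ h' he
    rw [mem_coe, mem_product, mem_range, mem_range] at h h'
    simp only at he h h'
    have h1 : (w : ℤ) - Q * x = w' - Q * x' := by exact_mod_cast he
    have h2 : (x : ℤ) = x' := by
      by_contra hne
      have h3 : (Q : ℤ) * (x - x') = w - w' := by linear_combination (-1) * h1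
      have h4 : |(w : ℤ) - w'| < Q := by
        rw [abs_lt]
        constructor <;> omega
      rw [← h3, abs_mul] at h4
      have h5 : 1 ≤ |(x : ℤ) - x'| := Int.one_le_abs (sub_ne_zero.2 hne)
      have h6 : |(Q : ℤ)| = Q := abs_of_nonneg (by positivity)
      rw [h6] at h4
      nlinarith
    have h3 : (w : ℤ) = w' := by
      rw [h2] at h1
      linarith
    rw [Prod.mk.injEq]
    exact ⟨by exact_mod_cast h2, by exact_mod_cast h3⟩
  have hbg : bg (S.image fun r : ℕ => (r : ℚ)) A ≤ (L + 1) * Q := by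
    apply max_le
    · have e : prInf A ⊆ (range Q).image fun x : ℕ => (x : ℚ) := by
        intro z hz
        obtain ⟨p, hp, rfl⟩ := mem_image.1 hz
        rw [hA] at hp
        obtain ⟨q, hq, rfl⟩ := mem_image.1 hp
        exact mem_image.2 ⟨q.1, (mem_product.1 hq).1, rfl⟩
      calc (prInf A).card ≤ ((range Q).image fun x : ℕ => (x : ℚ)).card := card_le_card e
        _ ≤ (range Q).card := card_image_le
        _ = Q := card_range Q
        _ ≤ (L + 1) * Q := by nlinarith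
    · apply Finset.sup_le
      intro r' hr'
      obtain ⟨r, hr, rfl⟩ := mem_image.1 hr'
      have e : pr (r : ℚ) A ⊆ (range ((L + 1) * Q)).image fun x : ℕ => (x : ℚ) := by
        intro z hz
        obtain ⟨p, hp, rfl⟩ := mem_image.1 hz
        rw [hA] at hp
        obtain ⟨q, hq, rfl⟩ := mem_image.1 hp
        rw [mem_product, mem_range, mem_range] at hq
        obtain ⟨h1, h2⟩ := hS r hr
        obtain ⟨t, rfl⟩ := Nat.exists_eq_add_of_le h1
        refine mem_image.2 ⟨q.2 + t * q.1, ?_, ?_⟩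
        · rw [mem_range]
          have h3 : t ≤ L := by omega
          have h4 : t * q.1 ≤ L * Q := Nat.mul_le_mul h3 hq.1.le
          calc q.2 + t * q.1 < Q + L * Q := by omega
            _ = _ := by ring
        · push_cast
          ring
      calc (pr (r : ℚ) A).card ≤ ((range ((L + 1) * Q)).image fun x : ℕ => (x : ℚ)).card :=
            card_le_card e
        _ ≤ (range ((L + 1) * Q)).card := card_image_le
        _ = (L + 1) * Q := card_range _
  apply amplify hA0 hκ0 hκ1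
  rw [hm]
  have hQ2 : (1 : ℝ) < Q := by
    by_contra hcon
    have h1 : (Q : ℝ) ≤ 1 := not_lt.1 hcon
    have h2 : (Q : ℝ) ^ δ ≤ 1 := Real.rpow_le_one hQ0.le h1 hδ0.le
    linarith
  calc (bg (S.image fun r : ℕ => (r : ℚ)) A : ℝ) ^ κ' ≤ (((L : ℝ) + 1) * Q) ^ κ' := by
        apply Real.rpow_le_rpow (by positivity) _ hκ0
        exact_mod_cast hbg
    _ ≤ ((Q : ℝ) ^ (1 + 2 * δ)) ^ κ' := by
        apply Real.rpow_le_rpow (by positivity) _ hκ0
        rw [Real.rpow_add hQ0, Real.rpow_one, mul_comm]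
        exact mul_le_mul_of_nonneg_left hL1 hQ0.le
    _ = (Q : ℝ) ^ ((1 + 2 * δ) * κ') := by rw [← Real.rpow_mul hQ0.le]
    _ < (Q : ℝ) ^ (2 : ℝ) := Real.rpow_lt_rpow_of_exponent_lt hQ2 hδ1
    _ = ((Q * Q : ℕ) : ℝ) := by
        rw [show (2 : ℝ) = ((2 : ℕ) : ℝ) by norm_num, Real.rpow_natCast]
        push_cast
        ring

/-- digits -/
lemma gen_digits {T : Set ℚ} {L : ℕ} (hL : 2 ≤ L) (hT : ∀ t : ℕ, t ≤ L → (t : ℚ) ∈ T) (m : ℕ) :
    ∀ n : ℕ, n < L ^ m → (n : ℚ) ∈ Gen T (2 * m) := by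
  induction m with
  | zero =>
    intro n hn
    rw [pow_zero] at hn
    have : n = 0 := by omega
    rw [this]
    exact Or.inl (Or.inl (by simp))
  | succ m ih =>
    intro n hn
    have h1 : n / L < L ^ m := by
      rw [Nat.div_lt_iff_lt_mul (by omega)]
      rw [pow_succ] at hn
      exact hn
    have h2 := ih _ h1
    have h3 : n % L ≤ L := (Nat.mod_lt _ (by omega)).le
    have h4 : ((n / L : ℕ) : ℚ) * (L : ℚ) ∈ Gen T (2 * m + 1) :=
      ⟨_, h2, _, gen_mono (Nat.zero_le _) (Or.inr (hT L le_rfl)),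
        Or.inr (Or.inr (Or.inr (Or.inl rfl)))⟩
    refine ⟨_, h4, ((n % L : ℕ) : ℚ), gen_mono (Nat.zero_le _) (Or.inr (hT _ h3)),
      Or.inr (Or.inl ?_)⟩
    have h5 : n = n / L * L + n % L := (Nat.div_add_mod' n L).symm
    exact_mod_cast h5

/-- long blocks are uniformly of use -/
theorem blocks_pos (δ : ℝ) (hδ : 0 < δ) : ∃ κ : ℝ, κ < 2 ∧ ∀ M L : ℕ, 2 ≤ L →
    (M : ℝ) ^ δ ≤ L → ∀ A : Finset (ℤ × ℤ), ((proj (-1) A).card : ℝ) ≤
      (big ((Icc M (M + L)).image fun r : ℕ => (r : ℚ)) A : ℝ) ^ κ := by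
  classical
  obtain ⟨m, hm⟩ := exists_nat_gt (1 / δ)
  obtain ⟨κ, hκ, h⟩ := int_positive (2 * (m + 2))
  refine ⟨κ, hκ, fun M L hL hML A => ?_⟩
  have hmem : ∀ t : ℕ, t ≤ L → ((M + t : ℕ) : ℚ) ∈ (Icc M (M + L)).image fun r : ℕ => (r : ℚ) :=
    fun t ht => mem_image_of_mem (fun r : ℕ => (r : ℚ)) (mem_Icc.2 ⟨by omega, by omega⟩)
  have h0 := hmem 0 (by omega)
  have h1 := hmem 1 (by omega)
  refine h _ ((M + 0 : ℕ) : ℚ) ((M + 1 : ℕ) : ℚ) h0 h1 ?_ ?_ A
  · intro h2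
    have : M + 0 = M + 1 := by exact_mod_cast h2
    omega
  · have e1 : ((M + 1 : ℕ) : ℚ) - ((M + 0 : ℕ) : ℚ) = 1 := by push_cast; ring
    rw [e1, div_one]
    have e2 : 1 + ((M + 0 : ℕ) : ℚ) = ((M + 1 : ℕ) : ℚ) := by push_cast; ring
    rw [e2]
    apply gen_digits hL
    · intro t ht
      refine ⟨_, hmem t ht, ?_⟩
      rw [e1]
      push_cast
      ring
    · have hLR : (2 : ℝ) ≤ L := by exact_mod_cast hL
      have hL0 : (0 : ℝ) < L := by linarith
      have h3 : (M : ℝ) ≤ (L : ℝ) ^ m := by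
        rcases Nat.eq_zero_or_pos M with hM | hM
        · rw [hM]
          push_cast
          positivity
        · have hM1 : (1 : ℝ) ≤ M := by exact_mod_cast hM
          calc (M : ℝ) = (M : ℝ) ^ (1 : ℝ) := (Real.rpow_one _).symm
            _ ≤ (M : ℝ) ^ (δ * m) := by
                apply Real.rpow_le_rpow_of_exponent_le hM1
                rw [div_lt_iff₀ hδ] at hm
                linarith
            _ = ((M : ℝ) ^ δ) ^ m := by
                rw [Real.rpow_mul (by positivity), Real.rpow_natCast]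
            _ ≤ (L : ℝ) ^ m := pow_le_pow_left₀ (by positivity) hML m
      have h4 : M ≤ L ^ m := by exact_mod_cast h3
      have h5 : 1 ≤ L ^ m := Nat.one_le_pow _ _ (by omega)
      have h6 : L ^ (m + 2) = L ^ m * (L * L) := by rw [pow_add, pow_two]
      have h7 : 4 ≤ L * L := by nlinarith
      rw [h6]
      nlinarith

end Pool.Agent.Run7.h84.US
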